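import Pool.Agent.Helper187.CC.Basic

set_option autoImplicit false
open Finset

namespace H187CC

/-! Definitions and task statements for the project CYCLE (MP_240aa8_pr, S19209). -/

variable {A : Type}

/-- incidence algebra of (ℕ, ≤): (f * g) a b = ∑ x ∈ Icc a b, f a x * g x b -/
abbrev IA := IncidenceAlgebra ℝ ℕ

/-- element of the incidence algebra attached to a function f on nonempty words and a sequence x:
the entry (a,b) is f (x_a, ..., x_b) -/
noncomputable def el (f : List A → ℝ) (x : ℕ → A) : IA :=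
  ⟨fun a b => if a ≤ b then f (seg x a (b + 1 - a)) else 0, fun a b h => by simp [h]⟩

noncomputable def elR (t : ℝ) (x : ℕ → A) : IA :=
  ⟨fun a b => if a ≤ b then F t (some (x a)) none (seg x (a + 1) (b - a)) else 0,
    fun a b h => by simp [h]⟩

noncomputable def elL (t : ℝ) (x : ℕ → A) : IA :=
  ⟨fun a b => if a ≤ b then F t none (some (x b)) (seg x a (b - a)) else 0,
    fun a b h => by simp [h]⟩

noncomputable def elK (t : ℝ) (x : ℕ → A) : IA :=
  ⟨fun a b => if a < b then F t (some (x a)) (some (x b)) (seg x (a + 1) (b - a - 1)) else 0,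
    fun a b h => by
      have h' : ¬ a < b := fun h2 => h h2.le
      simp [h']⟩

noncomputable def tau (t : ℝ) (f : IA) : IA :=
  ⟨fun a b => t ^ (b - a) * f a b, fun a b h => by
    rw [IncidenceAlgebra.apply_eq_zero_of_not_le h, mul_zero]⟩

/-- kap t f a b = t ^ (b - a - 1) * f a b (for f vanishing on the diagonal) -/
noncomputable def kap (t : ℝ) (f : IA) : IA :=
  ⟨fun a b => t ^ (b - a - 1) * f a b, fun a b h => by
    rw [IncidenceAlgebra.apply_eq_zero_of_not_le h, mul_zero]⟩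

noncomputable def dd (f : IA) : IA :=
  ⟨fun a b => ((b : ℝ) - (a : ℝ)) * f a b, fun a b h => by
    rw [IncidenceAlgebra.apply_eq_zero_of_not_le h, mul_zero]⟩

/-- n-periodic elements -/
def per (n : ℕ) (f : IA) : Prop := ∀ a b, f (a + n) (b + n) = f a b

noncomputable def tr (n : ℕ) (f : IA) : ℝ := ∑ i ∈ range n, f i (i + n)

noncomputable def cutU (n : ℕ) (P D : IA) (s : ℕ) : ℝ :=
  (∑ a ∈ Ioo s (s + n), ∑ b ∈ Ico a (s + n), D a b * P b (a + n)) - D s (s + n)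

/-! word level tasks -/

def TaskM : Prop := ∀ (q : ℕ) (t : ℝ), 0 < t → t < 1 → (q : ℝ) = t + 2 + 1 / t →
  ∀ u w : List (Fin q), ∑ c : Fin q, pi' t (u ++ c :: w) = (1 + t) / t * (pi' t u * pi' t w)

def TaskSC : Prop := ∀ (A : Type) (t : ℝ), 0 < t → t < 1 → ∀ (c : A) (w : List A),
  vspl (fun u a v => ind (a = c) *
    (phi t (u ++ [a]) * phi t v - phi t u * phi t (a :: v))) w = 0

def TaskN3 : Prop := ∀ (A : Type) (t : ℝ), 0 < t → t < 1 → ∀ (c : A) (w : List A),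
  (1 + t) * vspl (fun u a v => ind (a = c) *
    (t ^ v.length * (phi t (u ++ [a]) * pi' t v)
      - t ^ (v.length + 1) * (phi t u * pi' t (a :: v)))) w
    = phi t w / (1 - t) - phi t (w ++ [c])

def TaskN3r : Prop := TaskSC → ∀ (A : Type) (t : ℝ), 0 < t → t < 1 → ∀ (c : A) (w : List A),
  (1 + t) * vspl (fun u a v => ind (a = c) *
    (t ^ (u.length + 1) * (pi' t (u ++ [a]) * phi t v)
      - t ^ u.length * (pi' t u * phi t (a :: v)))) w
    = phi t (c :: w) - phi t w / (1 - t)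

def TaskFA : Prop := ∀ (A : Type) (t : ℝ), 0 < t → t < 1 → ∀ (al be : Option A),
  ¬ (∃ a, al = some a ∧ be = some a) → ∀ w : List A, w ≠ [] →
  Proper (al.toList ++ w ++ be.toList) →
  (1 - t ^ w.length) * F t al be w
    = vspl (fun u c v => t ^ u.length * (F t al (some c) u * F t (some c) be v)) w

/-! algebra level tasks -/

def TaskRing : Prop := TaskFA → ∀ (A : Type) (t : ℝ), 0 < t → t < 1 → ∀ x : ℕ → A,
  tau t (elR t x) = elR t x - kap t (elK t x) * elR t x ∧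
  elL t x = tau t (elL t x) * (1 + elK t x) ∧
  el (psi t) x = tau t (elL t x) * elR t x

def TaskP1 : Prop := TaskN3 → ∀ (A : Type) (t : ℝ), 0 < t → t < 1 → ∀ (x : ℕ → A) (a b : ℕ), a < b →
  (el (phi t) x * el (Delta t) x) a b =
    ind (Proper (seg x a (b + 1 - a))) * ((1 + t) * t ^ (b - a) * pi' t (seg x a (b - a)) *
      (ind (x a = x b) - ind (x a = x (b - 1))))

def TaskP1t : Prop := TaskSC → TaskN3 → ∀ (A : Type) (t : ℝ), 0 < t → t < 1 →
  ∀ (x : ℕ → A) (a b : ℕ), a < b →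
  (el (fun w => t ^ w.length * phi t w) x * el (Delta t) x) a b =
    ind (Proper (seg x a (b + 1 - a))) * ((1 + t) * t ^ (b - a) * pi' t (seg x a (b - a)) *
      (ind (x a = x b) - ind (x a = x (b - 1))))

def TaskGen : Prop := ∀ f : IA, (∀ a, f a a = 1) → ∃ g : IA, f * g = 1 ∧ g * f = 1

/-- both-sided inverse, from P1, P1t and Gen -/
def TaskInv : Prop := ∀ (A : Type) (t : ℝ), 0 < t → t < 1 → ∀ x : ℕ → A,
  el (psi t) x * el (Delta t) x = 1 ∧ el (Delta t) x * el (psi t) x = 1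

def TaskStar : Prop := TaskSC → TaskN3r → TaskN3 → TaskP1 → ∀ (A : Type) (t : ℝ), 0 < t → t < 1 →
  ∀ x : ℕ → A,
  el (phi t) x * el (Delta t) x * el (phi t) x = el (phi t) x + el (eps t) x

def TaskTr : Prop := ∀ (n : ℕ) (f g : IA), per n f → per n g → tr n (f * g) = tr n (g * f)

def TaskPos : Prop := TaskGen → TaskTr → ∀ (n : ℕ) (t : ℝ), 0 < n → 0 < t → t < 1 →
  ∀ K R L P D : IA, per n K → per n R → per n L → per n P → per n D →
  (∀ a, K a a = 0) → (∀ a, R a a = 1) → (∀ a, L a a = 1) → (∀ a b, 0 ≤ K a b) →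
  tau t R = R - kap t K * R → L = tau t L * (1 + K) → P = tau t L * R →
  P * D = 1 → D * P = 1 → 0 ≤ tr n (dd P * D)

def TaskCut : Prop := ∀ (n : ℕ) (P D : IA), 0 < n → per n P → per n D →
  (∀ a, P a a = 1) → (∀ a, D a a = 1) → P * D = 1 → D * P = 1 →
  ∀ s, (n : ℝ) * cutU n P D s = tr n (dd P * D)

def TaskMarg : Prop := TaskM → TaskInv →
  (∀ (A : Type) (t : ℝ), 0 < t → t < 1 → ∀ x : ℕ → A,
    el (phi t) x * el (Delta t) x * el (phi t) x = el (phi t) x + el (eps t) x) →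
  ∀ (q : ℕ) (t : ℝ), 0 < t → t < 1 → (q : ℝ) = t + 2 + 1 / t → ∀ (m : ℕ), 1 ≤ m →
  ∀ y : ℕ → Fin q, Proper (seg y 0 m) →
  ∑ c : Fin q, ((∑ a ∈ range m, ∑ b ∈ Ico a m,
      Delta t (seg y a (b + 1 - a)) * psi t (seg y b (m - b) ++ c :: seg y 0 (a + 1)))
      - Delta t (c :: seg y 0 m ++ [c]))
    = (1 + t) / t * (1 - t ^ m) * (1 - t ^ (m + 2)) * pi' t (seg y 0 m)

/-! laws -/

/-- iterated sum over r letters -/
def sumr (q : ℕ) : ℕ → (List (Fin q) → ℝ) → ℝ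
  | 0, G => G []
  | r + 1, G => ∑ c : Fin q, sumr q r (fun l => G (c :: l))

/-- a consistent family of path weights such that summing over r consecutive letters factorises -/
def PathLaw (q r : ℕ) (P : List (Fin q) → ℝ) : Prop :=
  P [] = 1 ∧ (∀ w, 0 ≤ P w) ∧ (∀ w, ∑ c : Fin q, P (c :: w) = P w) ∧
  (∀ w, ∑ c : Fin q, P (w ++ [c]) = P w) ∧
  (∀ u w, sumr q r (fun l => P (u ++ l ++ w)) = P u * P w)

/-- weights on cyclic words of length n -/
def CycLaw (q r n : ℕ) (P Q : List (Fin q) → ℝ) : Prop :=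
  (∀ w, w.length = n → 0 ≤ Q w) ∧
  (∀ (σ : Equiv.Perm (Fin q)) (w : List (Fin q)), w.length = n → Q (w.map σ) = Q w) ∧
  (∀ a w, w.length + 1 = n → Q (w ++ [a]) = Q (a :: w)) ∧
  (∀ a w, w.length + 2 = n → Q (a :: a :: w) = 0) ∧
  (∀ w, w.length + r = n → sumr q r (fun l => Q (w ++ l)) = P w)

def TaskFour : Prop := ∃ P, PathLaw 4 1 P ∧ ∀ n, 3 ≤ n → ∃ Q, CycLaw 4 1 n P Q

def TaskThree : Prop := ∃ P, PathLaw 3 2 P ∧ ∀ n, 3 ≤ n → ∃ Q, CycLaw 3 2 n P Q

def TaskFive : Prop := ∀ q : ℕ, 5 ≤ q → ∃ P, PathLaw q 1 P ∧ ∀ n, 3 ≤ n → ∃ Q, CycLaw q 1 n P Q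

/-- integral of G against a list of test functions -/
def E {q : ℕ} : (List (Fin q) → ℝ) → List (Fin q → ℝ) → ℝ
  | G, [] => G []
  | G, f :: fs => ∑ a : Fin q, f a * E (fun w => G (a :: w)) fs

def TaskPathInd : Prop := ∀ (q r : ℕ) (P : List (Fin q) → ℝ), 1 ≤ r → PathLaw q r P →
  ∀ fs gs : List (Fin q → ℝ), fs.length = gs.length →
  (∀ i j, ∀ (hi : i < fs.length) (hj : j < gs.length), fs[i] ≠ 1 → gs[j] ≠ 1 →
    r + i < j ∨ r + j < i) →
  E P (List.zipWith (fun f g => f * g) fs gs) = E P fs * E P gs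

def TaskCycInd : Prop := TaskPathInd → ∀ (q r k n : ℕ) (P Q : List (Fin q) → ℝ),
  1 ≤ r → r ≤ k → 3 ≤ n → PathLaw q r P → CycLaw q r n P Q →
  ∑ x : Fin n → Fin q, Q (List.ofFn x) = 1 ∧
  ∀ f g : Fin n → (Fin q → ℝ), (∃ i, f i ≠ 1) → (∃ j, g j ≠ 1) →
  (∀ i j, f i ≠ 1 → g j ≠ 1 → k < (SimpleGraph.cycleGraph n).dist i j) →
  ∑ x : Fin n → Fin q, Q (List.ofFn x) * ∏ i, (f i (x i) * g i (x i))
    = (∑ x : Fin n → Fin q, Q (List.ofFn x) * ∏ i, f i (x i))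
      * (∑ x : Fin n → Fin q, Q (List.ofFn x) * ∏ i, g i (x i))

open MeasureTheory ProbabilityTheory in
def TaskMeas : Prop := ∀ (q k n : ℕ) (W : (Fin n → Fin q) → ℝ), 3 ≤ n →
  (∀ x, 0 ≤ W x) → ∑ x, W x = 1 →
  (∀ (σ : Equiv.Perm (Fin q)) x, W (fun i => σ (x i)) = W x) →
  (∀ x, ∀ i j : Fin n, (SimpleGraph.cycleGraph n).Adj i j → x i = x j → W x = 0) →
  (∀ f g : Fin n → (Fin q → ℝ), (∃ i, f i ≠ 1) → (∃ j, g j ≠ 1) →
    (∀ i j, f i ≠ 1 → g j ≠ 1 → k < (SimpleGraph.cycleGraph n).dist i j) →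
    ∑ x, W x * ∏ i, (f i (x i) * g i (x i)) = (∑ x, W x * ∏ i, f i (x i)) * (∑ x, W x * ∏ i, g i (x i))) →
  ∃ μ : Measure (Fin n → Fin q), IsProbabilityMeasure μ ∧
    (∀ᵐ x ∂μ, ∀ i j : Fin n, (SimpleGraph.cycleGraph n).Adj i j → x i ≠ x j) ∧
    (∀ σ : Equiv.Perm (Fin q), μ.map (fun x : Fin n → Fin q => σ ∘ x) = μ) ∧
    (∀ A B : Set (Fin n),
      (∀ a ∈ A, ∀ b ∈ B, k < (SimpleGraph.cycleGraph n).dist a b) →
      IndepFun (fun x : Fin n → Fin q => fun a : A => x a)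
        (fun x : Fin n → Fin q => fun b : B => x b) μ)

end H187CC
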