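import Pool.Agent.Helper187.CC.AllFive
import Pool.Agent.H581R3.CCFour
import Pool.Agent.H446R3.CC.TaskThree

set_option autoImplicit false
open MeasureTheory ProbabilityTheory

namespace H187CC

theorem all_done :
    ∀ k q : ℕ, ((1 ≤ k ∧ 5 ≤ q) ∨ (2 ≤ k ∧ 4 ≤ q) ∨ (3 ≤ k ∧ 3 ≤ q)) →
      ∀ n : ℕ, 3 ≤ n →
        ∃ μ : Measure (Fin n → Fin q), IsProbabilityMeasure μ ∧
          (∀ᵐ x ∂μ, ∀ i j : Fin n, (SimpleGraph.cycleGraph n).Adj i j → x i ≠ x j) ∧
          (∀ σ : Equiv.Perm (Fin q), μ.map (fun x : Fin n → Fin q => σ ∘ x) = μ) ∧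
          (∀ A B : Set (Fin n),
            (∀ a ∈ A, ∀ b ∈ B, k < (SimpleGraph.cycleGraph n).dist a b) →
            IndepFun (fun x : Fin n → Fin q => fun a : A => x a)
              (fun x : Fin n → Fin q => fun b : B => x b) μ) :=
  final_all taskFive Pool.Agent.H581R3.CCFour.taskFour H187CC.taskThree
    Pool.Agent.H581R3.CCPath.taskPathInd taskMeas

end H187CC
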