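import Pool.Agent.Helper187.CC.Stmts
import Pool.Agent.H644R3.CC.CycInd

set_option autoImplicit false
open Finset MeasureTheory ProbabilityTheory

namespace H187CC

/-- rotation invariance -/
lemma cyc_rotate {q r n : ℕ} {P Q : List (Fin q) → ℝ} (h : CycLaw q r n P Q) (k : ℕ)
    (w : List (Fin q)) (hw : w.length = n) : Q (w.rotate k) = Q w := by
  induction k generalizing w with
  | zero => simp
  | succ k ih =>
    rw [show k + 1 = 1 + k by ring, ← List.rotate_rotate, ih _ (by simp [hw])]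
    cases w with
    | nil => simp
    | cons a v =>
      have : (a :: v).rotate 1 = v ++ [a] := by simp
      rw [this]
      exact h.2.2.1 a v (by simpa using hw)

lemma cyc_adj_zero {q r n : ℕ} {P Q : List (Fin q) → ℝ} (hn : 3 ≤ n) (h : CycLaw q r n P Q)
    (w : List (Fin q)) (hw : w.length = n) (i : ℕ) (hi : i < n)
    (he : w[i]'(by omega) = w[(i+1) % n]'(by rw [hw]; exact Nat.mod_lt _ (by omega))) : Q w = 0 := by
  rw [← cyc_rotate h i w hw]
  have hl : (w.rotate i).length = n := by simp [hw]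
  obtain ⟨a, v, hav⟩ : ∃ a v, w.rotate i = a :: v := by
    cases hh : w.rotate i with
    | nil => rw [hh] at hl; simp at hl; omega
    | cons a v => exact ⟨a, v, rfl⟩
  obtain ⟨b, u, hbu⟩ : ∃ b u, v = b :: u := by
    cases hh : v with
    | nil => rw [hav, hh] at hl; simp at hl; omega
    | cons b u => exact ⟨b, u, rfl⟩
  subst hbu
  have h0 : (w.rotate i)[0]'(by omega) = a := by simp [hav]
  have h1 : (w.rotate i)[1]'(by omega) = b := by simp [hav]
  rw [List.getElem_rotate] at h0 h1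
  have e0 : (0 + i) % w.length = i := by rw [hw, zero_add]; exact Nat.mod_eq_of_lt hi
  have e1 : (1 + i) % w.length = (i+1) % n := by rw [hw, add_comm]
  have h0' : w[i]'(by omega) = a := by rw [← h0]; congr 1; exact e0.symm
  have h1' : w[(i+1) % n]'(by rw [hw]; exact Nat.mod_lt _ (by omega)) = b := by
    rw [← h1]; congr 1; exact e1.symm
  rw [hav]
  have hab : a = b := by rw [← h0', ← h1']; exact he
  subst hab
  apply h.2.2.2.1 a u
  rw [hav] at hl
  simpa using hl

theorem final_law (hPI : TaskPathInd) (hMe : TaskMeas)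
    (q r k n : ℕ) (hr : 1 ≤ r) (hrk : r ≤ k) (hn : 3 ≤ n) (hrn : r ≤ n) (P Q : List (Fin q) → ℝ)
    (hP : PathLaw q r P) (hQ : CycLaw q r n P Q) :
    ∃ μ : Measure (Fin n → Fin q), IsProbabilityMeasure μ ∧
    (∀ᵐ x ∂μ, ∀ i j : Fin n, (SimpleGraph.cycleGraph n).Adj i j → x i ≠ x j) ∧
    (∀ σ : Equiv.Perm (Fin q), μ.map (fun x : Fin n → Fin q => σ ∘ x) = μ) ∧
    (∀ A B : Set (Fin n),
      (∀ a ∈ A, ∀ b ∈ B, k < (SimpleGraph.cycleGraph n).dist a b) →
      IndepFun (fun x : Fin n → Fin q => fun a : A => x a)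
        (fun x : Fin n → Fin q => fun b : B => x b) μ) := by
  obtain ⟨h1, h2⟩ := H644CC.cycInd hPI q r k n P Q hr hrn hrk hn hP hQ
  apply hMe q k n (fun x => Q (List.ofFn x)) hn
  · intro x; exact hQ.1 _ (by simp)
  · exact h1
  · intro σ x
    have : List.ofFn (fun i => σ (x i)) = (List.ofFn x).map σ := by
      rw [List.map_ofFn]; rfl
    simp only [this]
    exact hQ.2.1 σ _ (by simp)
  · intro x i j hij hx
    obtain ⟨m, rfl⟩ : ∃ m, n = m + 2 := ⟨n - 2, by omega⟩
    rw [SimpleGraph.cycleGraph_adj] at hij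
    -- from v - u = 1 get v = u + 1
    have key : ∀ u v : Fin (m + 2), v - u = 1 → x u = x v → Q (List.ofFn x) = 0 := by
      intro u v huv hxuv
      have hv : v = u + 1 := by rw [sub_eq_iff_eq_add] at huv; exact huv.trans (add_comm _ _)
      apply cyc_adj_zero hn hQ (List.ofFn x) (by simp) u.val u.isLt
      have hval : (u + 1 : Fin (m + 2)).val = (u.val + 1) % (m + 2) := by
        rw [Fin.val_add]; simp
      rw [List.getElem_ofFn, List.getElem_ofFn]
      have e1 : (⟨u.val, by simp⟩ : Fin (m + 2)) = u := by ext; rfl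
      have e2 : (⟨(u.val + 1) % (m + 2), Nat.mod_lt _ (by omega)⟩ : Fin (m + 2)) = v := by
        rw [hv]; ext; exact hval.symm
      rw [e2]
      exact hxuv
    rcases hij with hij | hij
    · exact key j i hij hx.symm
    · exact key i j hij hx
  · exact h2

theorem final_all (h5 : TaskFive) (h4 : TaskFour) (h3 : TaskThree)
    (hPI : TaskPathInd) (hMe : TaskMeas) :
    ∀ k q : ℕ, ((1 ≤ k ∧ 5 ≤ q) ∨ (2 ≤ k ∧ 4 ≤ q) ∨ (3 ≤ k ∧ 3 ≤ q)) →
      ∀ n : ℕ, 3 ≤ n →
        ∃ μ : Measure (Fin n → Fin q), IsProbabilityMeasure μ ∧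
          (∀ᵐ x ∂μ, ∀ i j : Fin n, (SimpleGraph.cycleGraph n).Adj i j → x i ≠ x j) ∧
          (∀ σ : Equiv.Perm (Fin q), μ.map (fun x : Fin n → Fin q => σ ∘ x) = μ) ∧
          (∀ A B : Set (Fin n),
            (∀ a ∈ A, ∀ b ∈ B, k < (SimpleGraph.cycleGraph n).dist a b) →
            IndepFun (fun x : Fin n → Fin q => fun a : A => x a)
              (fun x : Fin n → Fin q => fun b : B => x b) μ) := by
  intro k q hkq n hn
  by_cases hq5 : 5 ≤ q
  · obtain ⟨P, hP, hQ⟩ := h5 q hq5
    obtain ⟨Q, hQ⟩ := hQ n hn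
    exact final_law hPI hMe q 1 k n (le_refl _) (by omega) hn (by omega) P Q hP hQ
  · by_cases hq4 : q = 4
    · subst hq4
      obtain ⟨P, hP, hQ⟩ := h4
      obtain ⟨Q, hQ⟩ := hQ n hn
      exact final_law hPI hMe 4 1 k n (le_refl _) (by omega) hn (by omega) P Q hP hQ
    · have hq3 : q = 3 := by omega
      subst hq3
      obtain ⟨P, hP, hQ⟩ := h3
      obtain ⟨Q, hQ⟩ := hQ n hn
      exact final_law hPI hMe 3 2 k n (by omega) (by omega) hn (by omega) P Q hP hQ

end H187CC
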