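import Pool.Agent.Helper187.CC.Stmts

set_option autoImplicit false
open Finset

namespace H187CC

namespace P1

variable {A : Type}

lemma seg_snoc (x : ℕ → A) (a k : ℕ) : seg x a (k + 1) = seg x a k ++ [x (a + k)] := by
  rw [seg_append]; rfl

lemma seg_dropLast (x : ℕ → A) (a k : ℕ) : (seg x a (k + 1)).dropLast = seg x a k := by
  rw [seg_snoc, List.dropLast_concat]

lemma seg_getLast? (x : ℕ → A) (a k : ℕ) : (seg x a (k + 1)).getLast? = some (x (a + k)) := by
  rw [seg_snoc]; simp

lemma ind_true {p : Prop} (h : p) : ind p = 1 := by simp [ind, h]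

lemma ind_false {p : Prop} (h : ¬ p) : ind p = 0 := by simp [ind, h]

lemma ind_some (a b : A) : ind (some a = some b) = ind (a = b) := by
  by_cases h : a = b <;> simp [ind, h]

lemma Delta_seg (t : ℝ) (x : ℕ → A) (i k : ℕ) (hp : Proper (seg x i (k + 3))) :
    Delta t (seg x i (k + 3)) = (1 + t) * t ^ (k + 1) * pi' t (seg x (i + 1) (k + 1)) *
      (ind (x i = x (i + k + 2)) - ind (x (i + 1) = x (i + k + 2)) -
        ind (x i = x (i + k + 1)) + ind (x (i + 1) = x (i + k + 1))) := by
  have e : seg x i (k + 3) = x i :: x (i + 1) :: x (i + 1 + 1) :: seg x (i + 1 + 1 + 1) k := by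
    rw [seg_succ, seg_succ, seg_succ]
  rw [e, Delta, ← e, ind_true hp, one_mul]
  have e1 : x (i + 1 + 1) :: seg x (i + 1 + 1 + 1) k = seg x (i + 1 + 1) (k + 1) := rfl
  have e2 : x (i + 1) :: seg x (i + 1 + 1) (k + 1) = seg x (i + 1) (k + 1 + 1) := rfl
  rw [e1, e2, seg_dropLast, seg_length, seg_getLast?, seg_getLast?, ind_some, ind_some, ind_some,
    ind_some]
  have e3 : i + 1 + 1 + k = i + k + 2 := by ring
  have e4 : i + 1 + k = i + k + 1 := by ring
  rw [e3, e4]

lemma Delta_improper (t : ℝ) (w : List A) (h : ¬ Proper w) : Delta t w = 0 := by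
  rcases w with _ | ⟨a, _ | ⟨b, _ | ⟨c, w⟩⟩⟩
  · exact absurd trivial h
  · exact absurd trivial h
  · have : ¬ (a ≠ b) := fun h' => h ⟨h', trivial⟩
    rw [Delta, ind_false this, zero_mul]
  · rw [Delta, ind_false h, zero_mul]

end P1

open P1 in
theorem taskP1 : TaskP1 := by
  intro hN3 A t h0 h1 x a b hab
  obtain ⟨m, rfl⟩ : ∃ m, b = a + m + 1 := ⟨b - a - 1, by omega⟩
  have ht1 : (1 : ℝ) - t ≠ 0 := by linarith
  have hmul : (el (phi t) x * el (Delta t) x) a (a + m + 1) =
      ∑ j ∈ range (m + 2), phi t (seg x a (j + 1)) * Delta t (seg x (a + j) (m + 2 - j)) := by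
    rw [IncidenceAlgebra.mul_apply]
    have e : Icc a (a + m + 1) = Ico a (a + m + 2) := by
      ext i; simp only [mem_Icc, mem_Ico]; omega
    rw [e, Finset.sum_Ico_eq_sum_range]
    have e2 : a + m + 2 - a = m + 2 := by omega
    rw [e2]
    apply Finset.sum_congr rfl
    intro j hj
    rw [mem_range] at hj
    have e3 : (el (phi t) x) a (a + j) = phi t (seg x a (j + 1)) := by
      show (if a ≤ a + j then phi t (seg x a (a + j + 1 - a)) else 0) = _
      rw [if_pos (by omega)]
      congr 2; omega
    have e4 : (el (Delta t) x) (a + j) (a + m + 1) = Delta t (seg x (a + j) (m + 2 - j)) := by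
      show (if a + j ≤ a + m + 1 then Delta t (seg x (a + j) (a + m + 1 + 1 - (a + j))) else 0) = _
      rw [if_pos (by omega)]
      congr 2; omega
    rw [e3, e4]
  have el1 : a + m + 1 + 1 - a = m + 2 := by omega
  have el2 : a + m + 1 - a = m + 1 := by omega
  have el3 : a + m + 1 - 1 = a + m := by omega
  rw [hmul, el1, el2, el3]
  by_cases hp : Proper (seg x a (m + 2))
  swap
  · rw [ind_false hp, zero_mul]
    apply Finset.sum_eq_zero
    intro j hj
    rw [mem_range] at hj
    by_cases hq : Proper (seg x a (j + 1))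
    · have : ¬ Proper (seg x (a + j) (m + 2 - j)) := by
        intro hr
        apply hp
        obtain ⟨k, hk⟩ : ∃ k, m + 2 - j = k + 1 := ⟨m + 1 - j, by omega⟩
        have e : m + 2 = j + (k + 1) := by omega
        rw [e, seg_append, seg_succ]
        rw [hk, seg_succ] at hr
        rw [seg_snoc] at hq
        exact Proper_glue hq hr
      rw [Delta_improper t _ this, mul_zero]
    · rw [phi_improper t _ hq, zero_mul]
  · rw [ind_true hp, one_mul]
    -- subwords are proper
    have hsub : ∀ j k, j + k ≤ m + 2 → Proper (seg x (a + j) k) := by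
      intro j k hjk
      have e : m + 2 = j + (k + (m + 2 - j - k)) := by omega
      rw [e, seg_append] at hp
      have h2 := Proper_append_right hp
      rw [seg_append] at h2
      exact Proper_append_left h2
    have hadj : ∀ j, j ≤ m → x (a + j) ≠ x (a + j + 1) := by
      intro j hj
      have h2 := hsub j 2 (by omega)
      exact h2.1
    set Θ : ℕ → ℝ := fun j => t ^ (m + 1 - j) * (phi t (seg x a j) *
      pi' t (seg x (a + j) (m + 1 - j))) with hΘ
    -- the N3 sum
    have hN : ∀ c : A, (1 + t) * ∑ j ∈ range (m + 1), ind (x (a + j) = c) * (Θ (j + 1) - Θ j) =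
        phi t (seg x a (m + 1)) / (1 - t) - phi t (seg x a (m + 1) ++ [c]) := by
      intro c
      rw [← hN3 A t h0 h1 c (seg x a (m + 1)), vspl_seg]
      congr 1
      apply Finset.sum_congr rfl
      intro j hj
      rw [mem_range] at hj
      have e1 : m + 1 - 1 - j = m - j := by omega
      have e2 : m + 1 - (j + 1) = m - j := by omega
      have e3 : m + 1 - j = m - j + 1 := by omega
      have e4 : seg x (a + j) (m - j + 1) = x (a + j) :: seg x (a + j + 1) (m - j) := rfl
      simp only [hΘ, e1, e2, e3, e4, seg_length, ← seg_snoc]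
      rfl
    -- Abel summation
    have hAbel : ∀ c : A, ∑ j ∈ range m, Θ (j + 1) * (ind (x (a + j) = c) -
        ind (x (a + j + 1) = c)) = ∑ j ∈ range (m + 1), ind (x (a + j) = c) * (Θ (j + 1) - Θ j)
        - Θ (m + 1) * ind (x (a + m) = c) + Θ 0 * ind (x a = c) := by
      intro c
      have e1 : ∑ j ∈ range (m + 1), ind (x (a + j) = c) * Θ j =
          ∑ j ∈ range m, ind (x (a + j + 1) = c) * Θ (j + 1) + ind (x a = c) * Θ 0 := by
        rw [Finset.sum_range_succ']
        rfl
      have e2 : ∑ j ∈ range (m + 1), ind (x (a + j) = c) * Θ (j + 1) =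
          ∑ j ∈ range m, ind (x (a + j) = c) * Θ (j + 1) + ind (x (a + m) = c) * Θ (m + 1) :=
        Finset.sum_range_succ _ _
      simp only [mul_sub, Finset.sum_sub_distrib]
      rw [e1, e2]
      simp only [mul_comm (ind _) _]
      ring
    have hsum : ∑ j ∈ range m, phi t (seg x a (j + 1)) * Delta t (seg x (a + j) (m + 2 - j)) =
        (1 + t) * (∑ j ∈ range m, Θ (j + 1) * (ind (x (a + j) = x (a + m + 1)) -
          ind (x (a + j + 1) = x (a + m + 1))) - ∑ j ∈ range m, Θ (j + 1) *
          (ind (x (a + j) = x (a + m)) - ind (x (a + j + 1) = x (a + m)))) := by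
      rw [← Finset.sum_sub_distrib, Finset.mul_sum]
      apply Finset.sum_congr rfl
      intro j hj
      rw [mem_range] at hj
      obtain ⟨k, hk⟩ : ∃ k, m = j + k + 1 := ⟨m - j - 1, by omega⟩
      have e1 : m + 2 - j = k + 3 := by omega
      rw [e1, Delta_seg t x (a + j) k (hsub j (k + 3) (by omega))]
      have e2 : m + 1 - (j + 1) = k + 1 := by omega
      have e3 : a + j + k + 2 = a + m + 1 := by omega
      have e4 : a + j + k + 1 = a + m := by omega
      simp only [hΘ, e2, e3, e4]
      have e5 : a + (j + 1) = a + j + 1 := rfl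
      rw [e5]
      ring
    rw [Finset.sum_range_succ, Finset.sum_range_succ, hsum, hAbel, hAbel]
    have hd : phi t (seg x a (m + 1) ++ [x (a + m)]) = 0 := by
      apply phi_improper
      intro h
      rw [seg_snoc, List.append_assoc] at h
      have h2 := Proper_append_right h
      exact h2.1 rfl
    have hNc := hN (x (a + m + 1))
    have hNd := hN (x (a + m))
    rw [hd, sub_zero] at hNd
    have e1 : Delta t (seg x (a + (m + 1)) (m + 2 - (m + 1))) = 1 := by
      have : m + 2 - (m + 1) = 1 := by omega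
      rw [this]; rfl
    have e2 : Delta t (seg x (a + m) (m + 2 - m)) = -((1 + t) / (1 - t)) := by
      have : m + 2 - m = 2 := by omega
      rw [this]
      show ind (x (a + m) ≠ x (a + m + 1)) * (-((1 + t) / (1 - t))) = _
      rw [ind_true (hadj m le_rfl), one_mul]
    have e3 : phi t (seg x a (m + 1 + 1)) = phi t (seg x a (m + 1) ++ [x (a + m + 1)]) := by
      rw [seg_snoc x a (m + 1)]; rfl
    have e4 : ind (x (a + m) = x (a + m + 1)) = 0 := ind_false (hadj m le_rfl)
    have e5 : ind (x (a + m) = x (a + m)) = 1 := ind_true rfl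
    have e6 : Θ (m + 1) = phi t (seg x a (m + 1)) / (1 - t) := by
      simp only [hΘ, Nat.sub_self, pow_zero, one_mul, seg_zero, pi_nil]
      ring
    have e7 : Θ 0 = t ^ (m + 1) * pi' t (seg x a (m + 1)) := by
      simp only [hΘ, Nat.sub_zero, seg_zero, phi_nil, one_mul, add_zero]
    rw [e1, e2, e3, e4, e5, e6, e7]
    have e8 : (1 + t) / (1 - t) * phi t (seg x a (m + 1)) =
        (1 + t) * (phi t (seg x a (m + 1)) / (1 - t)) := by ring
    linear_combination hNc - hNd

end H187CC
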