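import Pool.Agent.Helper187.CC.Stmts

set_option autoImplicit false
open Finset

namespace H187CC.GenT

/-- entries of the left inverse -/
noncomputable def inv (f : IA) (a : ℕ) : ℕ → ℝ
  | b => if a = b then 1 else if a < b then
      - ∑ x ∈ (Ico a b).attach, inv f a x.1 * f x.1 b else 0
  termination_by b => b
  decreasing_by exact (mem_Ico.1 x.2).2

theorem inv_self (f : IA) (a : ℕ) : inv f a a = 1 := by
  rw [inv]; simp

theorem inv_lt (f : IA) (a b : ℕ) (h : a < b) :
    inv f a b = - ∑ x ∈ Ico a b, inv f a x * f x b := by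
  rw [inv, if_neg h.ne, if_pos h]
  rw [sum_attach (Ico a b) (fun x => inv f a x * f x b)]

theorem inv_gt (f : IA) (a b : ℕ) (h : ¬ a ≤ b) : inv f a b = 0 := by
  rw [inv, if_neg (by omega), if_neg (by omega)]

theorem left (f : IA) (hf : ∀ a, f a a = 1) : ∃ g : IA, g * f = 1 ∧ ∀ a, g a a = 1 := by
  refine ⟨⟨fun a b => inv f a b, fun a b h => inv_gt f a b h⟩, ?_, fun a => inv_self f a⟩
  ext a b hab

  rw [IncidenceAlgebra.mul_apply, IncidenceAlgebra.one_apply]
  change ∑ x ∈ Icc a b, inv f a x * f x b = _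
  rcases eq_or_lt_of_le hab with h | h
  · subst h
    simp [inv_self, hf]
  · rw [if_neg h.ne]
    have : Icc a b = insert b (Ico a b) := by
      ext x; simp only [mem_Icc, mem_insert, mem_Ico]; omega
    rw [this, sum_insert (by simp), inv_lt f a b h, hf b]
    ring

theorem gen : TaskGen := by
  intro f hf
  obtain ⟨g, hg, hg1⟩ := left f hf
  obtain ⟨h, hh, -⟩ := left g hg1
  refine ⟨g, ?_, hg⟩
  have : h = f := by
    calc h = h * (g * f) := by rw [hg, mul_one]
      _ = f := by rw [← mul_assoc, hh, one_mul]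
  rw [← this, hh]

end H187CC.GenT

namespace H187CC

theorem taskGen : TaskGen := GenT.gen

end H187CC
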