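import Pool.Agent.Helper187.CC.Five
import Pool.Agent.Helper187.CC.Final
import Pool.Agent.H711R5.CC.TaskM
import Pool.Agent.H526R3.CC.TaskSC
import Pool.Agent.H94R3.CC.TaskN3
import Pool.Agent.H393R3.CC.TN3r
import Pool.Agent.H589R3.CC.TaskFA
import Pool.Agent.H338R3.CC.Ring
import Pool.Agent.Helper187.CC.P1
import Pool.Agent.H383R3.CC.TaskP1t
import Pool.Agent.Helper187.CC.TaskGen
import Pool.Agent.H41R3.CCInv
import Pool.Agent.H284R3.CC.Star
import Pool.Agent.H633R3.CC.TrCut
import Pool.Agent.Helper187.CC.TaskPos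
import Pool.Agent.H349R3.CC.Marg
import Pool.Agent.H581R3.CCPath
import Pool.Agent.H978R3.V.Meas

set_option autoImplicit false

namespace H187CC

theorem taskInv' : TaskInv :=
  Pool.Agent.H41R3.CCInv.taskInv taskSC taskN3 taskP1 taskP1t taskGen

theorem taskFive : TaskFive :=
  five taskM taskFA taskRing taskInv'
    (taskStar taskSC Pool.Agent.H393R3.CC.taskN3r taskN3 taskP1)
    taskGen taskTr H187CC.TPos.t taskCut taskMarg

end H187CC
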