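import Mathlib

set_option autoImplicit false
open Finset

namespace H187CC

variable {A : Type}

/-- deletion sum: sum over the letters i of w of
t^(number of letters to the right of i) * f (w with letter i deleted) -/
def del (t : ℝ) : (List A → ℝ) → List A → ℝ
  | _, [] => 0
  | f, a :: w => t ^ w.length * f w + del t (fun v => f (a :: v)) w

/-- sum over all ways w = u ++ c :: v of V u c v -/
def vspl : (List A → A → List A → ℝ) → List A → ℝ
  | _, [] => 0
  | V, a :: w => V [] a w + vspl (fun u c v => V (a :: u) c v) w

/-- no two adjacent letters are equal -/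
def Proper : List A → Prop
  | [] => True
  | [_] => True
  | a :: b :: w => a ≠ b ∧ Proper (b :: w)

open Classical in
/-- building functions with boundary letters -/
noncomputable def FN (t : ℝ) (al be : Option A) : ℕ → List A → ℝ
  | 0, _ => if (∃ a, al = some a ∧ be = some a) then 0 else 1
  | n + 1, w => if Proper (al.toList ++ w ++ be.toList) then
      (1 - t ^ (n + 1))⁻¹ * del t (FN t al be n) w else 0

noncomputable def F (t : ℝ) (al be : Option A) (w : List A) : ℝ := FN t al be w.length w

noncomputable def phi (t : ℝ) (w : List A) : ℝ := F t none none w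
noncomputable def pi' (t : ℝ) (w : List A) : ℝ := phi t w / (1 - t ^ (w.length + 1))
noncomputable def psi (t : ℝ) (w : List A) : ℝ := (1 - t ^ w.length) * phi t w

open Classical in
/-- indicator -/
noncomputable def ind (p : Prop) : ℝ := if p then 1 else 0

/-- the glue inverse of psi, W is a nonempty word -/
noncomputable def Delta (t : ℝ) : List A → ℝ
  | [] => 0
  | [_] => 1
  | [a, b] => ind (a ≠ b) * (-((1 + t) / (1 - t)))
  | a :: b :: c :: w =>
      ind (Proper (a :: b :: c :: w)) * ((1 + t) * t ^ ((c :: w).length) * pi' t ((b :: c :: w).dropLast) *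
        (ind (some a = (c :: w).getLast?) - ind (some b = (c :: w).getLast?)
          - ind (some a = (b :: c :: w).dropLast.getLast?) + ind (some b = (b :: c :: w).dropLast.getLast?)))

/-- the loop element -/
noncomputable def eps (t : ℝ) (w : List A) : ℝ :=
  (1 + t) * t ^ w.length * pi' t w * ind (w.head? = w.getLast?)

/-- word x_a, ..., x_(a+k-1) -/
def seg (x : ℕ → A) : ℕ → ℕ → List A
  | _, 0 => []
  | a, k + 1 => x a :: seg x (a + 1) k

/-! ### basic lemmas -/

@[simp] lemma del_nil (t : ℝ) (f : List A → ℝ) : del t f [] = 0 := rfl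
lemma del_cons (t : ℝ) (f : List A → ℝ) (a : A) (w : List A) :
    del t f (a :: w) = t ^ w.length * f w + del t (fun v => f (a :: v)) w := rfl
@[simp] lemma vspl_nil (V : List A → A → List A → ℝ) : vspl V [] = 0 := rfl
lemma vspl_cons (V : List A → A → List A → ℝ) (a : A) (w : List A) :
    vspl V (a :: w) = V [] a w + vspl (fun u c v => V (a :: u) c v) w := rfl
@[simp] lemma seg_zero (x : ℕ → A) (a : ℕ) : seg x a 0 = [] := rfl
lemma seg_succ (x : ℕ → A) (a k : ℕ) : seg x a (k + 1) = x a :: seg x (a + 1) k := rfl

@[simp] lemma seg_length (x : ℕ → A) (a k : ℕ) : (seg x a k).length = k := by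
  induction k generalizing a with
  | zero => rfl
  | succ k ih => simp [seg_succ, ih]

lemma seg_append (x : ℕ → A) (a k l : ℕ) : seg x a (k + l) = seg x a k ++ seg x (a + k) l := by
  induction k generalizing a with
  | zero => simp
  | succ k ih =>
    rw [show k + 1 + l = (k + l) + 1 by ring, seg_succ, seg_succ, ih]
    simp [add_assoc, add_comm 1 k]

lemma del_congr (t : ℝ) (f g : List A → ℝ) (w : List A)
    (h : ∀ v : List A, v.length + 1 = w.length → f v = g v) : del t f w = del t g w := by
  induction w generalizing f g with
  | nil => rfl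
  | cons a w ih =>
    rw [del_cons, del_cons, h w (by simp)]
    congr 1
    exact ih _ _ (fun v hv => h (a :: v) (by simp [hv]))

lemma del_add (t : ℝ) (f g : List A → ℝ) (w : List A) :
    del t (fun v => f v + g v) w = del t f w + del t g w := by
  induction w generalizing f g with
  | nil => simp
  | cons a w ih => simp only [del_cons]; rw [ih]; ring

lemma del_mul (t c : ℝ) (f : List A → ℝ) (w : List A) :
    del t (fun v => c * f v) w = c * del t f w := by
  induction w generalizing f with
  | nil => simp
  | cons a w ih => simp only [del_cons]; rw [ih]; ring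

lemma del_zero (t : ℝ) (w : List A) : del t (fun _ => (0 : ℝ)) w = 0 := by
  induction w with
  | nil => rfl
  | cons a w ih => simp only [del_cons]; rw [ih]; ring

lemma del_nonneg (t : ℝ) (ht : 0 ≤ t) (f : List A → ℝ) (w : List A) (hf : ∀ v, 0 ≤ f v) :
    0 ≤ del t f w := by
  induction w generalizing f with
  | nil => exact le_refl _
  | cons a w ih =>
    rw [del_cons]
    exact add_nonneg (mul_nonneg (pow_nonneg ht _) (hf _)) (ih _ (fun v => hf _))

lemma del_append (t : ℝ) (f : List A → ℝ) (u v : List A) :
    del t f (u ++ v) = t ^ v.length * del t (fun u' => f (u' ++ v)) u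
      + del t (fun v' => f (u ++ v')) v := by
  induction u generalizing f with
  | nil => simp
  | cons a u ih =>
    rw [List.cons_append, del_cons, del_cons, ih]
    simp only [List.length_append, List.cons_append]
    ring

/-- every splitting is reached: vspl only depends on the values on splittings -/
lemma vspl_congr (V W : List A → A → List A → ℝ) (w : List A)
    (h : ∀ u c v, w = u ++ c :: v → V u c v = W u c v) : vspl V w = vspl W w := by
  induction w generalizing V W with
  | nil => rfl
  | cons a w ih =>
    rw [vspl_cons, vspl_cons, h [] a w rfl]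
    congr 1
    exact ih _ _ (fun u c v hw => h (a :: u) c v (by rw [hw]; rfl))

lemma vspl_add (V W : List A → A → List A → ℝ) (w : List A) :
    vspl (fun u c v => V u c v + W u c v) w = vspl V w + vspl W w := by
  induction w generalizing V W with
  | nil => simp
  | cons a w ih => simp only [vspl_cons]; rw [ih]; ring

lemma vspl_mul (c : ℝ) (V : List A → A → List A → ℝ) (w : List A) :
    vspl (fun u a v => c * V u a v) w = c * vspl V w := by
  induction w generalizing V with
  | nil => simp
  | cons a w ih => simp only [vspl_cons]; rw [ih]; ring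

/-- derivation rule: deleting an unmarked letter of a word with one marked letter -/
lemma del_vspl (t : ℝ) (V : List A → A → List A → ℝ) (w : List A) :
    del t (fun w' => vspl V w') w =
      vspl (fun u a v => t ^ (v.length + 1) * del t (fun u' => V u' a v) u
        + del t (fun v' => V u a v') v) w := by
  induction w generalizing V with
  | nil => simp
  | cons b w ih =>
    rw [del_cons, vspl_cons]
    have h1 : del t (fun v => vspl V (b :: v)) w
        = del t (fun v => V [] b v) w + del t (fun v => vspl (fun u c v => V (b :: u) c v) v) w := by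
      rw [← del_add]; rfl
    rw [h1, ih]
    have h2 : vspl (fun u c v => t ^ (v.length + 1) * del t (fun u' => V u' c v) (b :: u)
          + del t (fun v' => V (b :: u) c v') v) w
        = t ^ w.length * vspl V w
          + vspl (fun u a v => t ^ (v.length + 1) * del t (fun u' => V (b :: u') a v) u
            + del t (fun v' => V (b :: u) a v') v) w := by
      rw [← vspl_mul, ← vspl_add]
      apply vspl_congr
      intro u c v hw
      rw [del_cons, hw]
      simp only [List.length_append, List.length_cons]
      ring
    rw [h2]
    simp only [del_nil]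
    ring

/-- vspl of a segment as a sum -/
lemma vspl_seg (V : List A → A → List A → ℝ) (x : ℕ → A) (a k : ℕ) :
    vspl V (seg x a k) = ∑ j ∈ range k, V (seg x a j) (x (a + j)) (seg x (a + j + 1) (k - 1 - j)) := by
  induction k generalizing V a with
  | zero => simp
  | succ k ih =>
    rw [seg_succ, vspl_cons, ih, Finset.sum_range_succ', add_comm]
    congr 1
    apply Finset.sum_congr rfl
    intro j hj
    rw [Finset.mem_range] at hj
    rw [seg_succ]
    have e1 : a + 1 + j = a + (j + 1) := by ring
    have e2 : k - 1 - j = k + 1 - 1 - (j + 1) := by omega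
    rw [e1, e2]

lemma FN_eq (t : ℝ) (al be : Option A) (n : ℕ) (w : List A) (h : w.length = n) :
    FN t al be n w = F t al be w := by rw [F, h]

open Classical in
lemma F_nil (t : ℝ) (al be : Option A) :
    F t al be [] = if (∃ a, al = some a ∧ be = some a) then 0 else 1 := by
  simp [F, FN]

lemma F_improper (t : ℝ) (al be : Option A) (w : List A) (hw : w ≠ [])
    (h : ¬ Proper (al.toList ++ w ++ be.toList)) : F t al be w = 0 := by
  obtain ⟨a, v, rfl⟩ := List.exists_cons_of_ne_nil hw
  unfold F
  rw [List.length_cons]
  unfold FN
  rw [if_neg h]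

lemma pow_ne (t : ℝ) (h0 : 0 < t) (h1 : t < 1) (n : ℕ) (hn : n ≠ 0) : (1 : ℝ) - t ^ n ≠ 0 := by
  have : t ^ n < 1 := pow_lt_one₀ h0.le h1 hn
  intro h2
  linarith

lemma pow_pos' (t : ℝ) (h0 : 0 < t) (h1 : t < 1) (n : ℕ) (hn : n ≠ 0) : (0 : ℝ) < 1 - t ^ n := by
  have : t ^ n < 1 := pow_lt_one₀ h0.le h1 hn
  linarith

/-- the deletion recursion (also true, trivially, for the empty word if it is proper) -/
lemma F_rec (t : ℝ) (h0 : 0 < t) (h1 : t < 1) (al be : Option A) (w : List A)
    (h : Proper (al.toList ++ w ++ be.toList)) :
    (1 - t ^ w.length) * F t al be w = del t (F t al be) w := by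
  cases w with
  | nil => simp
  | cons a v =>
    have hne := pow_ne t h0 h1 (a :: v).length (by simp)
    have : F t al be (a :: v) = (1 - t ^ (v.length + 1))⁻¹ * del t (FN t al be v.length) (a :: v) := by
      unfold F
      rw [List.length_cons]
      conv_lhs => unfold FN
      rw [if_pos h]
    rw [this]
    have h2 : del t (FN t al be v.length) (a :: v) = del t (F t al be) (a :: v) := by
      apply del_congr
      intro u hu
      apply FN_eq
      simpa using hu
    rw [h2, ← mul_assoc]
    simp only [List.length_cons] at hne ⊢
    rw [mul_inv_cancel₀ hne, one_mul]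

lemma F_nonneg (t : ℝ) (h0 : 0 < t) (h1 : t < 1) (al be : Option A) (w : List A) :
    0 ≤ F t al be w := by
  have : ∀ n (w : List A), 0 ≤ FN t al be n w := by
    intro n
    induction n with
    | zero => intro w; unfold FN; split_ifs <;> norm_num
    | succ n ih =>
      intro w
      unfold FN
      split_ifs
      · exact mul_nonneg (inv_nonneg.mpr (pow_pos' t h0 h1 (n+1) (by omega)).le)
          (del_nonneg t h0.le _ _ ih)
      · exact le_refl _
  exact this _ _

@[simp] lemma phi_nil (t : ℝ) : phi t ([] : List A) = 1 := by
  simp [phi, F_nil]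

lemma phi_improper (t : ℝ) (w : List A) (h : ¬ Proper w) : phi t w = 0 := by
  by_cases hw : w = []
  · subst hw; exact absurd trivial h
  · exact F_improper t none none w hw (by simpa using h)

lemma phi_rec (t : ℝ) (h0 : 0 < t) (h1 : t < 1) (w : List A) (h : Proper w) :
    (1 - t ^ w.length) * phi t w = del t (phi t) w :=
  F_rec t h0 h1 none none w (by simpa using h)

lemma pi_nil (t : ℝ) : pi' t ([] : List A) = 1 / (1 - t) := by simp [pi']

lemma phi_eq_pi (t : ℝ) (h0 : 0 < t) (h1 : t < 1) (w : List A) :
    phi t w = (1 - t ^ (w.length + 1)) * pi' t w := by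
  unfold pi'
  have := pow_ne t h0 h1 (w.length + 1) (by omega)
  field_simp

/-- deletion recursion for pi', for proper nonempty words -/
lemma pi_rec (t : ℝ) (h0 : 0 < t) (h1 : t < 1) (w : List A) (h : Proper w) (hw : w ≠ []) :
    (1 - t ^ (w.length + 1)) * pi' t w = del t (pi' t) w := by
  have hl : w.length ≠ 0 := by simpa using hw
  have h3 : del t (pi' t) w = (1 - t ^ w.length)⁻¹ * del t (phi t) w := by
    rw [← del_mul]
    apply del_congr
    intro v hv
    rw [pi', hv, div_eq_inv_mul]
  rw [h3, ← phi_rec t h0 h1 w h, ← phi_eq_pi t h0 h1, ← mul_assoc,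
    inv_mul_cancel₀ (pow_ne t h0 h1 _ hl), one_mul]

lemma pi_improper (t : ℝ) (w : List A) (h : ¬ Proper w) : pi' t w = 0 := by
  rw [pi', phi_improper t w h, zero_div]

lemma phi_nonneg (t : ℝ) (h0 : 0 < t) (h1 : t < 1) (w : List A) : 0 ≤ phi t w :=
  F_nonneg t h0 h1 _ _ w

lemma pi_nonneg (t : ℝ) (h0 : 0 < t) (h1 : t < 1) (w : List A) : 0 ≤ pi' t w :=
  div_nonneg (phi_nonneg t h0 h1 w) (pow_pos' t h0 h1 _ (by omega)).le

lemma Proper_append_left {u v : List A} (h : Proper (u ++ v)) : Proper u := by
  induction u with
  | nil => trivial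
  | cons a u ih =>
    cases u with
    | nil => trivial
    | cons b u => exact ⟨h.1, ih h.2⟩

lemma Proper_tail {a : A} {v : List A} (h : Proper (a :: v)) : Proper v := by
  cases v with
  | nil => trivial
  | cons b v => exact h.2

lemma Proper_append_right {u v : List A} (h : Proper (u ++ v)) : Proper v := by
  induction u with
  | nil => exact h
  | cons a u ih => exact ih (Proper_tail h)

/-- proper pieces overlapping in one letter glue to a proper word -/
lemma Proper_glue {u v : List A} {c : A} (h1 : Proper (u ++ [c])) (h2 : Proper (c :: v)) :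
    Proper (u ++ c :: v) := by
  induction u with
  | nil => exact h2
  | cons a u ih =>
    cases u with
    | nil => exact ⟨h1.1, h2⟩
    | cons b u => exact ⟨h1.1, ih h1.2⟩

end H187CC
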