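import Pool.Agent.Helper187.CC.Stmts

set_option autoImplicit false
open Finset

namespace H187CC

variable {A B : Type}

lemma seg_congr (x y : ℕ → A) (a b k : ℕ) (h : ∀ i < k, x (a + i) = y (b + i)) :
    seg x a k = seg y b k := by
  induction k generalizing a b with
  | zero => rfl
  | succ k ih =>
    rw [seg_succ, seg_succ]
    have h0 := h 0 (by omega)
    simp only [add_zero] at h0
    rw [h0, ih (a + 1) (b + 1) (fun i hi => by
      have := h (i + 1) (by omega)
      rwa [show a + 1 + i = a + (i + 1) by ring, show b + 1 + i = b + (i + 1) by ring])]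

lemma improper_seg (x : ℕ → A) (a k i : ℕ) (h1 : a ≤ i) (h2 : i + 1 < a + k) (h : x i = x (i + 1)) :
    ¬ Proper (seg x a k) := by
  obtain ⟨j, rfl⟩ := Nat.exists_eq_add_of_le h1
  obtain ⟨l, rfl⟩ : ∃ l, k = j + (l + 2) := ⟨k - j - 2, by omega⟩
  rw [seg_append]
  intro hp
  have := Proper_append_right hp
  rw [seg_succ, seg_succ] at this
  exact this.1 h

lemma Proper_map (σ : A → B) (hσ : Function.Injective σ) (w : List A) :
    Proper (w.map σ) ↔ Proper w := by
  induction w with
  | nil => exact Iff.rfl
  | cons a w ih =>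
    cases w with
    | nil => exact Iff.rfl
    | cons b w =>
      simp only [List.map_cons] at ih ⊢
      unfold Proper
      rw [ih, hσ.ne_iff]

lemma del_map (t : ℝ) (σ : A → B) (f : List B → ℝ) (w : List A) :
    del t f (w.map σ) = del t (fun v => f (v.map σ)) w := by
  induction w generalizing f with
  | nil => rfl
  | cons a w ih =>
    simp only [List.map_cons, del_cons]
    rw [ih]; simp

lemma phi_map (t : ℝ) (σ : A → B) (hσ : Function.Injective σ) (w : List A) :
    phi t (w.map σ) = phi t w := by
  have : ∀ n (w : List A), FN t none none n (w.map σ) = FN t none none n w := by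
    intro n
    induction n with
    | zero => intro w; simp [FN]
    | succ n ih =>
      intro w
      unfold FN
      have e : Proper ((none : Option B).toList ++ w.map σ ++ (none : Option B).toList)
          ↔ Proper ((none : Option A).toList ++ w ++ (none : Option A).toList) := by
        simpa using Proper_map σ hσ w
      have e2 : del t (FN t none none n) (w.map σ) = del t (FN t (none : Option A) none n) w := by
        rw [del_map]
        exact del_congr _ _ _ _ (fun v _ => ih v)
      rw [e2]
      by_cases hp : Proper ((none : Option A).toList ++ w ++ (none : Option A).toList)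
      · rw [if_pos hp, if_pos (e.mpr hp)]
      · rw [if_neg hp, if_neg (fun h => hp (e.mp h))]
  unfold phi F
  rw [this]
  simp

lemma pi_map (t : ℝ) (σ : A → B) (hσ : Function.Injective σ) (w : List A) :
    pi' t (w.map σ) = pi' t w := by
  unfold pi'; rw [phi_map t σ hσ]; simp

lemma psi_map (t : ℝ) (σ : A → B) (hσ : Function.Injective σ) (w : List A) :
    psi t (w.map σ) = psi t w := by
  unfold psi; rw [phi_map t σ hσ]; simp

lemma ind_congr {p q : Prop} (h : p ↔ q) : ind p = ind q := by
  have e : p = q := propext h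
  subst e; rfl

lemma getLast_map_iff (σ : A → B) (hσ : Function.Injective σ) (a : A) (w : List A) :
    (some (σ a) = (w.map σ).getLast?) ↔ (some a = w.getLast?) := by
  rw [List.getLast?_map]
  cases h : w.getLast? with
  | none => simp
  | some b => simp [hσ.eq_iff]

lemma Delta_two (t : ℝ) (a b : A) : Delta t [a, b] = ind (a ≠ b) * (-((1 + t) / (1 - t))) := rfl

lemma Delta_long (t : ℝ) (a b c : A) (w : List A) : Delta t (a :: b :: c :: w) =
      ind (Proper (a :: b :: c :: w)) * ((1 + t) * t ^ ((c :: w).length) * pi' t ((b :: c :: w).dropLast) *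
        (ind (some a = (c :: w).getLast?) - ind (some b = (c :: w).getLast?)
          - ind (some a = (b :: c :: w).dropLast.getLast?) + ind (some b = (b :: c :: w).dropLast.getLast?))) := rfl

lemma Delta_map (t : ℝ) (σ : A → B) (hσ : Function.Injective σ) (w : List A) :
    Delta t (w.map σ) = Delta t w := by
  match w with
  | [] => rfl
  | [_] => rfl
  | [a, b] =>
    simp only [List.map_cons, List.map_nil]
    rw [Delta_two, Delta_two, ind_congr (hσ.ne_iff)]
  | a :: b :: c :: w =>
    have e1 := Proper_map σ hσ (a :: b :: c :: w)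
    have e2 := pi_map t σ hσ ((b :: c :: w).dropLast)
    have e3 := getLast_map_iff σ hσ a (c :: w)
    have e4 := getLast_map_iff σ hσ b (c :: w)
    have e5 := getLast_map_iff σ hσ a ((b :: c :: w).dropLast)
    have e6 := getLast_map_iff σ hσ b ((b :: c :: w).dropLast)
    rw [List.map_dropLast] at e2 e5 e6
    simp only [List.map_cons] at e1 e2 e3 e4 e5 e6 ⊢
    rw [Delta_long, Delta_long, ind_congr e1, e2, ind_congr e3, ind_congr e4, ind_congr e5, ind_congr e6]
    simp

lemma Delta_improper (t : ℝ) (w : List A) (h : ¬ Proper w) : Delta t w = 0 := by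
  match w, h with
  | [], h => exact absurd trivial h
  | [_], h => exact absurd trivial h
  | [a, b], h =>
    rw [Delta_two]
    have : ¬ (a ≠ b) := fun h2 => h ⟨h2, trivial⟩
    unfold ind
    rw [if_neg this, zero_mul]
  | a :: b :: c :: w, h =>
    rw [Delta_long]
    have : ind (Proper (a :: b :: c :: w)) = 0 := by unfold ind; rw [if_neg h]
    rw [this, zero_mul]

lemma psi_improper (t : ℝ) (w : List A) (h : ¬ Proper w) : psi t w = 0 := by
  unfold psi; rw [phi_improper t w h, mul_zero]

lemma el_apply (f : List A → ℝ) (x : ℕ → A) (a b : ℕ) (h : a ≤ b) :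
    el f x a b = f (seg x a (b + 1 - a)) := by
  show (if a ≤ b then f (seg x a (b + 1 - a)) else 0) = _
  rw [if_pos h]

lemma el_per (f : List A → ℝ) (x : ℕ → A) (n : ℕ) (hx : ∀ i, x (i + n) = x i) :
    per n (el f x) := by
  intro a b
  show (if a + n ≤ b + n then f (seg x (a + n) (b + n + 1 - (a + n))) else 0)
    = (if a ≤ b then f (seg x a (b + 1 - a)) else 0)
  by_cases h : a ≤ b
  · rw [if_pos h, if_pos (by omega)]
    congr 1
    rw [show b + n + 1 - (a + n) = b + 1 - a by omega]
    apply seg_congr
    intro i _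
    rw [show a + n + i = (a + i) + n by ring, hx]
  · rw [if_neg h, if_neg (by omega)]

lemma elR_per (t : ℝ) (x : ℕ → A) (n : ℕ) (hx : ∀ i, x (i + n) = x i) : per n (elR t x) := by
  intro a b
  show (if a + n ≤ b + n then F t (some (x (a + n))) none (seg x (a + n + 1) (b + n - (a + n))) else 0)
    = (if a ≤ b then F t (some (x a)) none (seg x (a + 1) (b - a)) else 0)
  by_cases h : a ≤ b
  · rw [if_pos h, if_pos (by omega), hx]
    congr 1
    rw [show b + n - (a + n) = b - a by omega]
    apply seg_congr
    intro i _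
    rw [show a + n + 1 + i = (a + 1 + i) + n by ring, hx]
  · rw [if_neg h, if_neg (by omega)]

lemma elL_per (t : ℝ) (x : ℕ → A) (n : ℕ) (hx : ∀ i, x (i + n) = x i) : per n (elL t x) := by
  intro a b
  show (if a + n ≤ b + n then F t none (some (x (b + n))) (seg x (a + n) (b + n - (a + n))) else 0)
    = (if a ≤ b then F t none (some (x b)) (seg x a (b - a)) else 0)
  by_cases h : a ≤ b
  · rw [if_pos h, if_pos (by omega), hx]
    congr 1
    rw [show b + n - (a + n) = b - a by omega]
    apply seg_congr
    intro i _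
    rw [show a + n + i = (a + i) + n by ring, hx]
  · rw [if_neg h, if_neg (by omega)]

lemma elK_per (t : ℝ) (x : ℕ → A) (n : ℕ) (hx : ∀ i, x (i + n) = x i) : per n (elK t x) := by
  intro a b
  show (if a + n < b + n then F t (some (x (a + n))) (some (x (b + n)))
      (seg x (a + n + 1) (b + n - (a + n) - 1)) else 0)
    = (if a < b then F t (some (x a)) (some (x b)) (seg x (a + 1) (b - a - 1)) else 0)
  by_cases h : a < b
  · rw [if_pos h, if_pos (by omega), hx, hx]
    congr 1
    rw [show b + n - (a + n) = b - a by omega]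
    apply seg_congr
    intro i _
    rw [show a + n + 1 + i = (a + 1 + i) + n by ring, hx]
  · rw [if_neg h, if_neg (by omega)]

lemma psi_single (t : ℝ) (h0 : 0 < t) (h1 : t < 1) (a : A) : psi t [a] = 1 := by
  unfold psi
  rw [phi_rec t h0 h1 [a] trivial, del_cons]
  simp

lemma cutU_shift (n s : ℕ) (P D P' D' : IA) (hP : ∀ a b, P' a b = P (a + 1) (b + 1))
    (hD : ∀ a b, D' a b = D (a + 1) (b + 1)) : cutU n P' D' s = cutU n P D (s + 1) := by
  unfold cutU
  rw [show s + 1 + n = s + n + 1 by ring, hD]
  congr 1
  rw [← Finset.map_add_right_Ioo s (s + n) 1, Finset.sum_map]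
  apply Finset.sum_congr rfl
  intro a _
  simp only [addRightEmbedding_apply]
  rw [← Finset.map_add_right_Ico a (s + n) 1, Finset.sum_map]
  apply Finset.sum_congr rfl
  intro b _
  simp only [addRightEmbedding_apply]
  rw [hD, hP, show a + 1 + n = a + n + 1 by ring]

/-- the cut sum at the last letter of the first period -/
lemma cutU_last (m : ℕ) (P D : IA) (hP : per (m + 1) P) (hD : per (m + 1) D) :
    cutU (m + 1) P D m = (∑ a ∈ range m, ∑ b ∈ Ico a m, D a b * P b (a + (m + 1)))
      - D m (m + (m + 1)) := by
  unfold cutU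
  congr 1
  have e : Ioo m (m + (m + 1)) = (range m).map (addRightEmbedding (m + 1)) := by
    rw [Finset.range_eq_Ico, Finset.map_add_right_Ico]
    ext i; simp only [mem_Ioo, mem_Ico]; omega
  rw [e, Finset.sum_map]
  apply Finset.sum_congr rfl
  intro a _
  simp only [addRightEmbedding_apply]
  rw [← Finset.map_add_right_Ico a m (m + 1), Finset.sum_map]
  apply Finset.sum_congr rfl
  intro b _
  simp only [addRightEmbedding_apply]
  rw [hD, hP]

/-- cutU vanishes if two cyclically adjacent letters are equal -/
lemma cutU_zero (t : ℝ) (x : ℕ → A) (n s i : ℕ) (hn : 0 < n) (hx : ∀ i, x (i + n) = x i)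
    (hi : x i = x (i + 1)) : cutU n (el (psi t) x) (el (Delta t) x) s = 0 := by
  -- in every window [a, a+n) there is an index congruent to i
  have hmul : ∀ k j, x (j + k * n) = x j := by
    intro k
    induction k with
    | zero => intro j; simp
    | succ k ih => intro j; rw [show j + (k + 1) * n = (j + k * n) + n by ring, hx, ih]
  have hmod : ∀ j, x j = x (j % n) := by
    intro j
    conv_lhs => rw [← Nat.mod_add_div j n, mul_comm n]
    exact hmul _ _
  have hwin : ∀ a, ∃ j, a ≤ j ∧ j < a + n ∧ x j = x (j + 1) := by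
    intro a
    -- j = a + ((i + n * a - a) mod n)
    refine ⟨a + (i + n * a - a) % n, by omega, by have := Nat.mod_lt (i + n * a - a) hn; omega, ?_⟩
    have hle : a ≤ n * a := Nat.le_mul_of_pos_left a hn
    have h1 : (a + (i + n * a - a) % n) % n = i % n := by
      rw [Nat.add_mod, Nat.mod_mod, ← Nat.add_mod, show a + (i + n * a - a) = i + n * a by omega,
        Nat.add_mul_mod_self_left]
    have h2 : (a + (i + n * a - a) % n + 1) % n = (i + 1) % n := by
      rw [Nat.add_mod, h1, ← Nat.add_mod]
    rw [hmod (a + (i + n * a - a) % n), h1, ← hmod, hmod (a + (i + n * a - a) % n + 1), h2, ← hmod]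
    exact hi
  unfold cutU
  have hlast : el (Delta t) x s (s + n) = 0 := by
    rw [el_apply _ _ _ _ (by omega)]
    obtain ⟨j, h1, h2, h3⟩ := hwin s
    exact Delta_improper _ _ (improper_seg x s _ j h1 (by omega) h3)
  rw [hlast, sub_zero]
  apply Finset.sum_eq_zero
  intro a ha
  apply Finset.sum_eq_zero
  intro b hb
  rw [mem_Ioo] at ha
  rw [mem_Ico] at hb
  obtain ⟨j, h1, h2, h3⟩ := hwin a
  by_cases hjb : j < b
  · rw [el_apply _ _ a b hb.1, Delta_improper _ _ (improper_seg x a _ j h1 (by omega) h3), zero_mul]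
  · rw [el_apply _ _ b (a + n) (by omega),
      psi_improper _ _ (improper_seg x b _ j (by omega) (by omega) h3), mul_zero]

/-- periodic sequence of a list -/
def XX {q : ℕ} [NeZero q] (n : ℕ) (w : List (Fin q)) : ℕ → Fin q := fun i => w.getD (i % n) 0

lemma XX_per {q : ℕ} [NeZero q] (n : ℕ) (w : List (Fin q)) (i : ℕ) :
    XX n w (i + n) = XX n w i := by simp [XX]

noncomputable def cst (t : ℝ) (n : ℕ) : ℝ :=
  ((1 + t) / (t * (1 - t))) ^ n * (1 - t ^ (n - 1)) * (1 - t ^ (n + 1))

noncomputable def QQ {q : ℕ} [NeZero q] (t : ℝ) (n : ℕ) (w : List (Fin q)) : ℝ :=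
  cutU n (el (psi t) (XX n w)) (el (Delta t) (XX n w)) (n - 1) / cst t n

noncomputable def PP {q : ℕ} (t : ℝ) (w : List (Fin q)) : ℝ :=
  pi' t w * (1 - t) / ((1 + t) / (t * (1 - t))) ^ w.length

lemma path_law (hM : TaskM) (q : ℕ) (t : ℝ) (h0 : 0 < t) (h1 : t < 1) (hq : (q : ℝ) = t + 2 + 1 / t) :
    PathLaw q 1 (PP (q := q) t) := by
  have hg : 0 < (1 + t) / (t * (1 - t)) := div_pos (by linarith) (mul_pos h0 (by linarith))
  have h1t : (1 - t) ≠ 0 := by linarith
  have key : ∀ u w : List (Fin q), ∑ c : Fin q, PP t (u ++ c :: w) = PP t u * PP t w := by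
    intro u w
    unfold PP
    have e : ∀ c : Fin q, pi' t (u ++ c :: w) * (1 - t) / ((1 + t) / (t * (1 - t))) ^ (u ++ c :: w).length
        = pi' t (u ++ c :: w) * ((1 - t) / ((1 + t) / (t * (1 - t))) ^ (u.length + w.length + 1)) := by
      intro c
      simp only [List.length_append, List.length_cons]
      rw [mul_div_assoc]; congr 2
    rw [Finset.sum_congr rfl (fun c _ => e c), ← Finset.sum_mul, hM q t h0 h1 hq u w]
    have hpow : ((1 + t) / (t * (1 - t))) ^ (u.length + w.length + 1)
        = ((1 + t) / (t * (1 - t))) ^ u.length * ((1 + t) / (t * (1 - t))) ^ w.length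
          * ((1 + t) / (t * (1 - t))) := by rw [pow_succ, pow_add]
    rw [hpow]
    have hu : ((1 + t) / (t * (1 - t))) ^ u.length ≠ 0 := (pow_pos hg _).ne'
    have hw : ((1 + t) / (t * (1 - t))) ^ w.length ≠ 0 := (pow_pos hg _).ne'
    generalize ((1 + t) / (t * (1 - t))) ^ u.length = U at *
    generalize ((1 + t) / (t * (1 - t))) ^ w.length = W at *
    have ht : t ≠ 0 := h0.ne'
    have h1' : 1 + t ≠ 0 := by linarith
    field_simp
  have hnil : PP (q := q) t [] = 1 := by
    unfold PP
    rw [pi_nil]
    simp [h1t]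
  refine ⟨hnil, ?_, ?_, ?_, ?_⟩
  · intro w
    unfold PP
    exact div_nonneg (mul_nonneg (pi_nonneg t h0 h1 w) (by linarith)) (pow_pos hg _).le
  · intro w
    have := key [] w
    simpa [hnil] using this
  · intro w
    have := key w []
    simpa [hnil] using this
  · intro u w
    simp only [sumr]
    have := key u w
    simpa using this

lemma exists_t (q : ℕ) (hq : 5 ≤ q) : ∃ t : ℝ, 0 < t ∧ t < 1 ∧ (q : ℝ) = t + 2 + 1 / t := by
  have hq' : (5 : ℝ) ≤ q := by exact_mod_cast hq
  set s := Real.sqrt ((q : ℝ) * (q - 4)) with hs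
  have hpos : 0 ≤ (q : ℝ) * (q - 4) := by nlinarith
  have hs2 : s ^ 2 = (q : ℝ) * (q - 4) := Real.sq_sqrt hpos
  have hs0 : 0 ≤ s := Real.sqrt_nonneg _
  have h1 : s < q - 2 := by nlinarith
  have h2 : (q : ℝ) - 4 < s := by nlinarith
  refine ⟨((q : ℝ) - 2 - s) / 2, by linarith, by linarith, ?_⟩
  have ht : ((q : ℝ) - 2 - s) / 2 ≠ 0 := by
    have : 0 < ((q : ℝ) - 2 - s) / 2 := by linarith
    exact this.ne'
  have h3 : (q : ℝ) - 2 - s ≠ 0 := by linarith
  field_simp
  nlinarith

lemma XX_eq {q : ℕ} [NeZero q] (m : ℕ) (w : List (Fin q)) (hw : w.length = m) (c : Fin q) (i : ℕ)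
    (hi : i < m) : XX (m + 1) (w ++ [c]) i = w.getD i 0 := by
  unfold XX
  rw [Nat.mod_eq_of_lt (by omega), List.getD_append _ _ _ _ (by omega)]

lemma XX_last {q : ℕ} [NeZero q] (m : ℕ) (w : List (Fin q)) (hw : w.length = m) (c : Fin q) :
    XX (m + 1) (w ++ [c]) m = c := by
  unfold XX
  rw [Nat.mod_eq_of_lt (by omega), List.getD_append_right _ _ _ _ (by omega), hw]
  simp

lemma seg_getD {q : ℕ} [NeZero q] (w : List (Fin q)) :
    seg (fun i => w.getD i 0) 0 w.length = w := by
  have : ∀ (u v : List (Fin q)), seg (fun i => (u ++ v).getD i 0) u.length v.length = v := by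
    intro u v
    induction v generalizing u with
    | nil => rfl
    | cons a v ih =>
      rw [List.length_cons, seg_succ]
      have h1 : (u ++ a :: v).getD u.length 0 = a := by
        rw [List.getD_append_right _ _ _ _ (le_refl _)]; simp
      rw [h1]
      congr 1
      have := ih (u ++ [a])
      simpa using this
  simpa using this [] w

/-- the cut sum of the word w ++ [c], in word form -/
lemma cutU_word {q : ℕ} [NeZero q] (t : ℝ) (m : ℕ) (w : List (Fin q)) (hw : w.length = m) (c : Fin q) :
    cutU (m + 1) (el (psi t) (XX (m + 1) (w ++ [c]))) (el (Delta t) (XX (m + 1) (w ++ [c]))) m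
    = (∑ a ∈ range m, ∑ b ∈ Ico a m,
      Delta t (seg (fun i => w.getD i 0) a (b + 1 - a)) *
        psi t (seg (fun i => w.getD i 0) b (m - b) ++ c :: seg (fun i => w.getD i 0) 0 (a + 1)))
      - Delta t (c :: seg (fun i => w.getD i 0) 0 m ++ [c]) := by
  set X := XX (m + 1) (w ++ [c]) with hX
  have hper : ∀ i, X (i + (m + 1)) = X i := fun i => XX_per _ _ _
  have hXm : X m = c := XX_last m w hw c
  have hXi : ∀ i, i < m → X i = w.getD i 0 := fun i hi => XX_eq m w hw c i hi
  rw [cutU_last m _ _ (el_per _ _ _ hper) (el_per _ _ _ hper)]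
  congr 1
  · apply Finset.sum_congr rfl
    intro a ha
    rw [mem_range] at ha
    apply Finset.sum_congr rfl
    intro b hb
    rw [mem_Ico] at hb
    rw [el_apply _ _ a b hb.1, el_apply _ _ b _ (by omega)]
    congr 1
    · congr 1
      apply seg_congr
      intro i hi
      exact hXi _ (by omega)
    · congr 1
      rw [show a + (m + 1) + 1 - b = (m - b) + ((a + 1) + 1) by omega, seg_append, seg_succ]
      rw [show b + (m - b) = m by omega, hXm]
      congr 1
      · apply seg_congr
        intro i hi
        exact hXi _ (by omega)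
      · congr 1
        apply seg_congr
        intro i hi
        rw [show m + 1 + i = (0 + i) + (m + 1) by ring, hper]
        exact hXi _ (by omega)
  · rw [el_apply _ _ _ _ (by omega)]
    congr 1
    rw [show m + (m + 1) + 1 - m = (m + 1) + 1 by omega, seg_succ, hXm, seg_append]
    rw [List.cons_append]
    congr 1
    congr 1
    · apply seg_congr
      intro i hi
      rw [show m + 1 + i = (0 + i) + (m + 1) by ring, hper]
      exact hXi _ (by omega)
    · rw [show m + 1 + m = m + (m + 1) by ring, seg_succ, seg_zero, hper, hXm]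

/-- the two-sided inverse statements and the star identity, for all sequences -/
def StarAll : Prop := ∀ (A : Type) (t : ℝ), 0 < t → t < 1 → ∀ x : ℕ → A,
    el (phi t) x * el (Delta t) x * el (phi t) x = el (phi t) x + el (eps t) x

lemma cyc_law (hM : TaskM) (hFA : TaskFA) (hRing : TaskRing) (hInv : TaskInv) (hStar : StarAll)
    (hGen : TaskGen) (hTr : TaskTr) (hPos : TaskPos) (hCut : TaskCut) (hMarg : TaskMarg)
    (q : ℕ) [NeZero q] (t : ℝ) (h0 : 0 < t) (h1 : t < 1) (hq : (q : ℝ) = t + 2 + 1 / t)
    (n : ℕ) (hn : 3 ≤ n) : CycLaw q 1 n (PP (q := q) t) (QQ (q := q) t n) := by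
  have hg : 0 < (1 + t) / (t * (1 - t)) := div_pos (by linarith) (mul_pos h0 (by linarith))
  have hcst : 0 < cst t n := by
    unfold cst
    exact mul_pos (mul_pos (pow_pos hg _) (pow_pos' t h0 h1 _ (by omega)))
      (pow_pos' t h0 h1 _ (by omega))
  -- periodic sequences: all the facts
  have hcut : ∀ (x : ℕ → Fin q), (∀ i, x (i + n) = x i) → ∀ s s',
      cutU n (el (psi t) x) (el (Delta t) x) s = cutU n (el (psi t) x) (el (Delta t) x) s' := by
    intro x hx s s'
    have hc := hCut n (el (psi t) x) (el (Delta t) x) (by omega) (el_per _ _ _ hx) (el_per _ _ _ hx)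
      (fun a => by
        rw [el_apply _ _ a a (le_refl _), show a + 1 - a = 0 + 1 by omega, seg_succ, seg_zero]
        exact psi_single t h0 h1 _)
      (fun a => by
        rw [el_apply _ _ a a (le_refl _), show a + 1 - a = 0 + 1 by omega, seg_succ, seg_zero]
        rfl)
      (hInv _ t h0 h1 x).1 (hInv _ t h0 h1 x).2
    have hn0 : (n : ℝ) ≠ 0 := by
      have : n ≠ 0 := by omega
      exact_mod_cast this
    exact mul_left_cancel₀ hn0 ((hc s).trans (hc s').symm)
  have hpos : ∀ (x : ℕ → Fin q), (∀ i, x (i + n) = x i) → ∀ s,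
      0 ≤ cutU n (el (psi t) x) (el (Delta t) x) s := by
    intro x hx s
    have hc := hCut n (el (psi t) x) (el (Delta t) x) (by omega) (el_per _ _ _ hx) (el_per _ _ _ hx)
      (fun a => by
        rw [el_apply _ _ a a (le_refl _), show a + 1 - a = 0 + 1 by omega, seg_succ, seg_zero]
        exact psi_single t h0 h1 _)
      (fun a => by
        rw [el_apply _ _ a a (le_refl _), show a + 1 - a = 0 + 1 by omega, seg_succ, seg_zero]
        rfl)
      (hInv _ t h0 h1 x).1 (hInv _ t h0 h1 x).2 s
    obtain ⟨hr1, hr2, hr3⟩ := hRing hFA (Fin q) t h0 h1 x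
    have hp := hPos hGen hTr n t (by omega) h0 h1 (elK t x) (elR t x) (elL t x)
      (el (psi t) x) (el (Delta t) x) (elK_per t x n hx) (elR_per t x n hx) (elL_per t x n hx)
      (el_per _ _ _ hx) (el_per _ _ _ hx)
      (fun a => by
        show (if a < a then _ else (0:ℝ)) = 0
        rw [if_neg (lt_irrefl a)])
      (fun a => by
        show (if a ≤ a then F t (some (x a)) none (seg x (a + 1) (a - a)) else 0) = 1
        rw [if_pos (le_refl a), Nat.sub_self, seg_zero, F_nil, if_neg]
        rintro ⟨b, _, h⟩; exact absurd h (by simp))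
      (fun a => by
        show (if a ≤ a then F t none (some (x a)) (seg x a (a - a)) else 0) = 1
        rw [if_pos (le_refl a), Nat.sub_self, seg_zero, F_nil, if_neg]
        rintro ⟨b, h, _⟩; exact absurd h (by simp))
      (fun a b => by
        show 0 ≤ (if a < b then F t (some (x a)) (some (x b)) (seg x (a + 1) (b - a - 1)) else 0)
        split_ifs
        · exact F_nonneg t h0 h1 _ _ _
        · exact le_refl _)
      hr1 hr2 hr3 (hInv _ t h0 h1 x).1 (hInv _ t h0 h1 x).2
    rw [← hc] at hp
    have hn0 : (0 : ℝ) < n := by exact_mod_cast (by omega : 0 < n)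
    exact nonneg_of_mul_nonneg_right hp hn0
  have hcongr : ∀ (x y : ℕ → Fin q), x = y → ∀ s, cutU n (el (psi t) x) (el (Delta t) x) s
      = cutU n (el (psi t) y) (el (Delta t) y) s := by
    intro x y h s; rw [h]
  refine ⟨?_, ?_, ?_, ?_, ?_⟩
  · intro w _
    exact div_nonneg (hpos _ (fun i => XX_per n w i) _) hcst.le
  · intro σ w hw
    unfold QQ
    congr 1
    have hX : XX n (w.map σ) = fun i => σ (XX n w i) := by
      funext i
      unfold XX
      have hlt : i % n < w.length := by rw [hw]; exact Nat.mod_lt _ (by omega)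
      rw [List.getD_eq_getElem _ _ (by simpa using hlt), List.getD_eq_getElem _ _ hlt]
      simp
    have hseg : ∀ (x : ℕ → Fin q) a k, seg (fun i => σ (x i)) a k = (seg x a k).map σ := by
      intro x a k
      induction k generalizing a with
      | zero => rfl
      | succ k ih => rw [seg_succ, seg_succ, ih]; rfl
    have e1 : ∀ (x : ℕ → Fin q), el (psi t) (fun i => σ (x i)) = el (psi t) x := by
      intro x
      ext a b
      show (if a ≤ b then psi t (seg (fun i => σ (x i)) a (b + 1 - a)) else 0)
        = (if a ≤ b then psi t (seg x a (b + 1 - a)) else 0)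
      rw [hseg, psi_map t σ σ.injective]
    have e2 : ∀ (x : ℕ → Fin q), el (Delta t) (fun i => σ (x i)) = el (Delta t) x := by
      intro x
      ext a b
      show (if a ≤ b then Delta t (seg (fun i => σ (x i)) a (b + 1 - a)) else 0)
        = (if a ≤ b then Delta t (seg x a (b + 1 - a)) else 0)
      rw [hseg, Delta_map t σ σ.injective]
    rw [hX, e1, e2]
  · intro a w hw
    unfold QQ
    congr 1
    have hX : XX n (w ++ [a]) = fun i => XX n (a :: w) (i + 1) := by
      funext i
      unfold XX
      by_cases hi : i % n + 1 = n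
      · have h2 : (i + 1) % n = 0 := by
          rw [Nat.add_mod]
          have h1n : 1 % n = 1 := Nat.mod_eq_of_lt (by omega)
          rw [h1n, hi, Nat.mod_self]
        rw [h2, List.getD_append_right _ _ _ _ (by omega)]
        rw [show i % n - w.length = 0 by omega]
        simp
      · have hlt : i % n < n := Nat.mod_lt _ (by omega)
        have h2 : (i + 1) % n = i % n + 1 := by
          rw [Nat.add_mod]
          have h1n : 1 % n = 1 := Nat.mod_eq_of_lt (by omega)
          rw [h1n, Nat.mod_eq_of_lt (by omega)]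
        rw [h2, List.getD_append _ _ _ _ (by omega)]
        simp
    rw [hX]
    have hsh : ∀ (f : List (Fin q) → ℝ) (x : ℕ → Fin q) (a b : ℕ),
        el f (fun i => x (i + 1)) a b = el f x (a + 1) (b + 1) := by
      intro f x a b
      show (if a ≤ b then f (seg (fun i => x (i + 1)) a (b + 1 - a)) else 0)
        = (if a + 1 ≤ b + 1 then f (seg x (a + 1) (b + 1 + 1 - (a + 1))) else 0)
      by_cases h : a ≤ b
      · rw [if_pos h, if_pos (by omega)]
        congr 1
        rw [show b + 1 + 1 - (a + 1) = b + 1 - a by omega]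
        apply seg_congr
        intro i _
        show x (a + i + 1) = x (a + 1 + i)
        rw [show a + i + 1 = a + 1 + i by ring]
      · rw [if_neg h, if_neg (by omega)]
    rw [cutU_shift n (n - 1) (el (psi t) (XX n (a :: w))) (el (Delta t) (XX n (a :: w))) _ _
      (fun a b => hsh _ _ _ _) (fun a b => hsh _ _ _ _)]
    exact hcut _ (fun i => XX_per n _ i) _ _
  · intro a w hw
    unfold QQ
    rw [cutU_zero t _ n _ 0 (by omega) (fun i => XX_per n _ i), zero_div]
    unfold XX
    rw [Nat.zero_mod, Nat.mod_eq_of_lt (by omega : 0 + 1 < n)]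
    simp
  · intro w hw
    simp only [sumr]
    obtain ⟨m, rfl⟩ : ∃ m, n = m + 1 := ⟨n - 1, by omega⟩
    have hwm : w.length = m := by omega
    have e : ∀ c : Fin q, QQ t (m + 1) (w ++ [c]) = cutU (m + 1) (el (psi t) (XX (m + 1) (w ++ [c])))
        (el (Delta t) (XX (m + 1) (w ++ [c]))) m / cst t (m + 1) := fun c => rfl
    rw [Finset.sum_congr rfl (fun c _ => e c), ← Finset.sum_div]
    by_cases hp : Proper w
    · rw [Finset.sum_congr rfl (fun c _ => cutU_word t m w hwm c)]
      have hs : seg (fun i => w.getD i 0) 0 m = w := by rw [← hwm]; exact seg_getD w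
      rw [hMarg hM hInv hStar q t h0 h1 hq m (by omega) (fun i => w.getD i 0) (by rw [hs]; exact hp), hs]
      unfold PP cst
      rw [hwm, show m + 1 - 1 = m by omega, show m + 1 + 1 = m + 2 by ring]
      have ha := pow_ne t h0 h1 m (by omega)
      have hb := pow_ne t h0 h1 (m + 2) (by omega)
      have hc : ((1 + t) / (t * (1 - t))) ^ m ≠ 0 := (pow_pos hg _).ne'
      have hpow : ((1 + t) / (t * (1 - t))) ^ (m + 1) = ((1 + t) / (t * (1 - t))) ^ m *
        ((1 + t) / (t * (1 - t))) := pow_succ _ _
      rw [hpow]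
      generalize ((1 + t) / (t * (1 - t))) ^ m = G at *
      generalize t ^ m = T at *
      generalize t ^ (m + 2) = T2 at *
      have ht : t ≠ 0 := h0.ne'
      have h1' : 1 + t ≠ 0 := by linarith
      have h1t : 1 - t ≠ 0 := by linarith
      field_simp
    · have hz : ∀ c : Fin q, cutU (m + 1) (el (psi t) (XX (m + 1) (w ++ [c])))
          (el (Delta t) (XX (m + 1) (w ++ [c]))) m = 0 := by
        intro c
        -- find an improper adjacency
        have hex : ∀ v : List (Fin q), ¬ Proper v → ∃ i, i + 1 < v.length ∧ v.getD i 0 = v.getD (i + 1) 0 := by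
          intro v
          induction v with
          | nil => intro h; exact absurd trivial h
          | cons a v ih =>
            intro h
            cases v with
            | nil => exact absurd trivial h
            | cons b v =>
              by_cases hab : a = b
              · exact ⟨0, by simp, by simp [hab]⟩
              · have : ¬ Proper (b :: v) := fun h2 => h ⟨hab, h2⟩
                obtain ⟨i, hi, he⟩ := ih this
                exact ⟨i + 1, by simpa using hi, by simpa using he⟩
        obtain ⟨i, hi, he⟩ := hex w hp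
        apply cutU_zero t _ (m + 1) m i (by omega) (fun i => XX_per _ _ i)
        rw [XX_eq m w hwm c i (by omega), XX_eq m w hwm c (i + 1) (by omega)]
        exact he
      rw [Finset.sum_eq_zero (fun c _ => hz c), zero_div]
      unfold PP
      rw [pi_improper t w hp]
      simp

theorem five (hM : TaskM) (hFA : TaskFA) (hRing : TaskRing) (hInv : TaskInv) (hStar : StarAll)
    (hGen : TaskGen) (hTr : TaskTr) (hPos : TaskPos) (hCut : TaskCut) (hMarg : TaskMarg) :
    TaskFive := by
  intro q hq
  obtain ⟨t, h0, h1, ht⟩ := exists_t q hq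
  haveI : NeZero q := ⟨by omega⟩
  exact ⟨PP t, path_law hM q t h0 h1 ht, fun n hn => ⟨QQ t n,
    cyc_law hM hFA hRing hInv hStar hGen hTr hPos hCut hMarg q t h0 h1 ht n hn⟩⟩

end H187CC
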