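import Pool.Agent.Helper187.CC.Stmts

set_option autoImplicit false
open Finset

namespace H187CC.TPos

open H187CC

lemma dd_apply (f : IA) (a b : ℕ) : dd f a b = ((b : ℝ) - (a : ℝ)) * f a b := rfl
lemma tau_apply (t : ℝ) (f : IA) (a b : ℕ) : tau t f a b = t ^ (b - a) * f a b := rfl
lemma kap_apply (t : ℝ) (f : IA) (a b : ℕ) : kap t f a b = t ^ (b - a - 1) * f a b := rfl

lemma dd_mul (f g : IA) : dd (f * g) = dd f * g + f * dd g := by
  ext a b hab
  rw [IncidenceAlgebra.add_apply, dd_apply, IncidenceAlgebra.mul_apply,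
    IncidenceAlgebra.mul_apply, IncidenceAlgebra.mul_apply, Finset.mul_sum,
    ← Finset.sum_add_distrib]
  apply Finset.sum_congr rfl
  intro x _
  rw [dd_apply, dd_apply]
  ring

lemma tau_mul (t : ℝ) (f g : IA) : tau t (f * g) = tau t f * tau t g := by
  ext a b hab
  rw [tau_apply, IncidenceAlgebra.mul_apply, IncidenceAlgebra.mul_apply, Finset.mul_sum]
  apply Finset.sum_congr rfl
  intro x hx
  rw [Finset.mem_Icc] at hx
  rw [tau_apply, tau_apply]
  have : b - a = (x - a) + (b - x) := by omega
  rw [this, pow_add]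
  ring

lemma tau_one (t : ℝ) : tau t (1 : IA) = 1 := by
  ext a b hab
  rw [tau_apply, IncidenceAlgebra.one_apply]
  split_ifs with h
  · subst h; simp
  · simp

lemma tau_pow (t : ℝ) (f : IA) (s : ℕ) : tau t (f ^ s) = (tau t f) ^ s := by
  induction s with
  | zero => simp [tau_one]
  | succ s ih => rw [pow_succ, pow_succ, tau_mul, ih]

lemma dd_tau (t : ℝ) (f : IA) : dd (tau t f) = tau t (dd f) := by
  ext a b hab
  rw [dd_apply, tau_apply, tau_apply, dd_apply]
  ring

lemma dd_one : dd (1 : IA) = 0 := by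
  ext a b hab
  rw [dd_apply, IncidenceAlgebra.one_apply]
  split_ifs with h
  · subst h; simp
  · simp

lemma dd_add (f g : IA) : dd (f + g) = dd f + dd g := by
  ext a b hab
  simp only [IncidenceAlgebra.add_apply, dd_apply]
  ring

lemma dd_sub (f g : IA) : dd (f - g) = dd f - dd g := by
  ext a b hab
  simp only [IncidenceAlgebra.sub_apply, dd_apply]
  ring

lemma dd_smul (c : ℝ) (f : IA) : dd (c • f) = c • dd f := by
  ext a b hab
  simp only [IncidenceAlgebra.constSMul_apply, dd_apply, smul_eq_mul]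
  ring

lemma tr_tau (n : ℕ) (t : ℝ) (f : IA) : tr n (tau t f) = t ^ n * tr n f := by
  unfold tr
  rw [Finset.mul_sum]
  apply Finset.sum_congr rfl
  intro i _
  rw [tau_apply, Nat.add_sub_cancel_left]

lemma tr_add (n : ℕ) (f g : IA) : tr n (f + g) = tr n f + tr n g := by
  unfold tr
  simp [Finset.sum_add_distrib]

lemma tr_sub (n : ℕ) (f g : IA) : tr n (f - g) = tr n f - tr n g := by
  unfold tr
  simp [Finset.sum_sub_distrib]

lemma tr_smul (n : ℕ) (c : ℝ) (f : IA) : tr n (c • f) = c * tr n f := by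
  unfold tr
  rw [Finset.mul_sum]
  simp [IncidenceAlgebra.constSMul_apply]

/-- shift -/
noncomputable def sh (n : ℕ) (f : IA) : IA :=
  ⟨fun a b => f (a + n) (b + n), fun a b h =>
    IncidenceAlgebra.apply_eq_zero_of_not_le (fun h2 => h (by omega)) f⟩

lemma sh_apply (n : ℕ) (f : IA) (a b : ℕ) : sh n f a b = f (a + n) (b + n) := rfl

lemma per_iff (n : ℕ) (f : IA) : per n f ↔ sh n f = f := by
  constructor
  · intro h
    ext a b hab
    exact h a b
  · intro h a b
    rw [← sh_apply, h]

lemma sh_mul (n : ℕ) (f g : IA) : sh n (f * g) = sh n f * sh n g := by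
  ext a b hab
  rw [sh_apply, IncidenceAlgebra.mul_apply, IncidenceAlgebra.mul_apply]
  symm
  apply Finset.sum_bij' (fun x _ => x + n) (fun x _ => x - n)
  · intro x hx; rw [Finset.mem_Icc] at hx ⊢; omega
  · intro x hx; rw [Finset.mem_Icc] at hx ⊢; omega
  · intro x hx; simp
  · intro x hx; rw [Finset.mem_Icc] at hx; omega
  · intro x hx; rfl

lemma sh_one (n : ℕ) : sh n (1 : IA) = 1 := by
  ext a b hab
  rw [sh_apply, IncidenceAlgebra.one_apply, IncidenceAlgebra.one_apply]
  simp

lemma per_mul {n : ℕ} {f g : IA} (hf : per n f) (hg : per n g) : per n (f * g) := by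
  rw [per_iff] at *
  rw [sh_mul, hf, hg]

lemma per_one (n : ℕ) : per n (1 : IA) := by
  rw [per_iff, sh_one]

lemma per_pow {n : ℕ} {f : IA} (hf : per n f) (s : ℕ) : per n (f ^ s) := by
  induction s with
  | zero => rw [pow_zero]; exact per_one n
  | succ s ih => rw [pow_succ]; exact per_mul ih hf

lemma per_add {n : ℕ} {f g : IA} (hf : per n f) (hg : per n g) : per n (f + g) := by
  intro a b
  rw [IncidenceAlgebra.add_apply, IncidenceAlgebra.add_apply, hf, hg]

lemma per_sub {n : ℕ} {f g : IA} (hf : per n f) (hg : per n g) : per n (f - g) := by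
  intro a b
  rw [IncidenceAlgebra.sub_apply, IncidenceAlgebra.sub_apply, hf, hg]

lemma per_dd {n : ℕ} {f : IA} (hf : per n f) : per n (dd f) := by
  intro a b
  rw [dd_apply, dd_apply, hf]
  push_cast
  ring

lemma per_tau {n : ℕ} {f : IA} (t : ℝ) (hf : per n f) : per n (tau t f) := by
  intro a b
  rw [tau_apply, tau_apply, hf]
  congr 2
  omega

lemma per_kap {n : ℕ} {f : IA} (t : ℝ) (hf : per n f) : per n (kap t f) := by
  intro a b
  rw [kap_apply, kap_apply, hf]
  congr 2
  omega

lemma per_inv {n : ℕ} {f g : IA} (hf : per n f) (h1 : f * g = 1) (h2 : g * f = 1) : per n g := by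
  rw [per_iff] at *
  have h3 : f * sh n g = 1 := by
    have := congrArg (sh n) h1
    rw [sh_mul, hf, sh_one] at this
    exact this
  calc sh n g = (g * f) * sh n g := by rw [h2, one_mul]
    _ = g * (f * sh n g) := by rw [mul_assoc]
    _ = g := by rw [h3, mul_one]

/-- additivity of the logarithmic derivative -/
lemma lam_mul (hTr : TaskTr) {n : ℕ} {f g f' g' : IA} (hf : per n f) (hg : per n g)
    (hf1 : f * f' = 1) (hf2 : f' * f = 1) (hg1 : g * g' = 1) (hg2 : g' * g = 1) :
    tr n (dd (f * g) * (g' * f')) = tr n (dd f * f') + tr n (dd g * g') := by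
  have e1 : dd (f * g) * (g' * f') = dd f * f' + f * (dd g * g' * f') := by
    rw [dd_mul, add_mul]
    congr 1
    · calc dd f * g * (g' * f') = dd f * (g * g') * f' := by simp only [mul_assoc]
        _ = dd f * f' := by rw [hg1, mul_one]
    · simp only [mul_assoc]
  rw [e1, tr_add]
  congr 1
  have pf' := per_inv hf hf1 hf2
  have pg' := per_inv hg hg1 hg2
  rw [hTr n f (dd g * g' * f') hf (per_mul (per_mul (per_dd hg) pg') pf')]
  congr 1
  rw [mul_assoc, hf2, mul_one]

/-- strictly upper triangular with gap `s` -/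
def gap (s : ℕ) (f : IA) : Prop := ∀ a b, b < a + s → f a b = 0

lemma gap_mul {s r : ℕ} {f g : IA} (hf : gap s f) (hg : gap r g) : gap (s + r) (f * g) := by
  intro a b hab
  rw [IncidenceAlgebra.mul_apply]
  apply Finset.sum_eq_zero
  intro x hx
  by_cases h : x < a + s
  · rw [hf a x h, zero_mul]
  · rw [hg x b (by omega), mul_zero]

lemma gap_zero (f : IA) : gap 0 f := by
  intro a b hab
  exact IncidenceAlgebra.apply_eq_zero_of_not_le (by omega) f

lemma gap_pow {f : IA} (hf : gap 1 f) (s : ℕ) : gap s (f ^ s) := by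
  induction s with
  | zero => exact gap_zero _
  | succ s ih => rw [pow_succ]; exact gap_mul ih hf

lemma gap_one {f : IA} (h : ∀ a, f a a = 0) : gap 1 f := by
  intro a b hab
  by_cases h2 : a = b
  · subst h2; exact h a
  · exact IncidenceAlgebra.apply_eq_zero_of_not_le (by omega) f

lemma neg_mul' (f g : IA) : -f * g = -(f * g) := by
  ext a b hab
  simp only [IncidenceAlgebra.mul_apply, IncidenceAlgebra.neg_apply, neg_mul,
    Finset.sum_neg_distrib]

lemma smul_mul' (c : ℝ) (f g : IA) : (c • f) * g = c • (f * g) := by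
  ext a b hab
  simp only [IncidenceAlgebra.mul_apply, IncidenceAlgebra.constSMul_apply, smul_eq_mul,
    Finset.mul_sum]
  exact Finset.sum_congr rfl fun x _ => by ring

lemma mul_smul' (c : ℝ) (f g : IA) : f * (c • g) = c • (f * g) := by
  ext a b hab
  simp only [IncidenceAlgebra.mul_apply, IncidenceAlgebra.constSMul_apply, smul_eq_mul,
    Finset.mul_sum]
  exact Finset.sum_congr rfl fun x _ => by ring

lemma smul_pow' (c : ℝ) (f : IA) (s : ℕ) : (c • f) ^ s = (c ^ s) • f ^ s := by
  induction s with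
  | zero => simp
  | succ s ih => rw [pow_succ, ih, smul_mul', mul_smul', smul_smul, pow_succ, pow_succ]

lemma gap_dd {s : ℕ} {f : IA} (h : gap s f) : gap s (dd f) := by
  intro a b hab
  rw [dd_apply, h a b hab, mul_zero]

/-- expansion of the logarithmic derivative -/
lemma tr_geom {n : ℕ} {f g : IA} (hf : gap 1 f) (h1 : (1 - f) * g = 1) (h2 : g * (1 - f) = 1) :
    tr n (dd f * g) = ∑ s ∈ range n, tr n (dd f * f ^ s) := by
  have e1 : ∀ m : ℕ, g = ∑ s ∈ range m, f ^ s + g * f ^ m := by
    intro m
    induction m with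
    | zero => simp
    | succ m ih =>
      have e2 : g = 1 + g * f := by
        have : g * (1 - f) = g - g * f := by rw [mul_sub, mul_one]
        rw [this] at h2
        rw [← h2]; abel
      rw [Finset.sum_range_succ]
      calc g = ∑ s ∈ range m, f ^ s + g * f ^ m := ih
        _ = ∑ s ∈ range m, f ^ s + (1 + g * f) * f ^ m := by rw [← e2]
        _ = ∑ s ∈ range m, f ^ s + f ^ m + g * f ^ (m + 1) := by
          rw [add_mul, one_mul, mul_assoc, ← pow_succ']
          abel
  have e3 : tr n (dd f * (g * f ^ n)) = 0 := by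
    unfold tr
    apply Finset.sum_eq_zero
    intro i _
    have h3 : gap (1 + (0 + n)) (dd f * (g * f ^ n)) :=
      gap_mul (gap_dd hf) (gap_mul (gap_zero g) (gap_pow hf n))
    exact h3 i (i + n) (by omega)
  have e4 : ∀ m, tr n (dd f * ∑ s ∈ range m, f ^ s) = ∑ s ∈ range m, tr n (dd f * f ^ s) := by
    intro m
    induction m with
    | zero => simp [tr]
    | succ m ih => rw [Finset.sum_range_succ, Finset.sum_range_succ, mul_add, tr_add, ih]
  calc tr n (dd f * g) = tr n (dd f * (∑ s ∈ range n, f ^ s + g * f ^ n)) := by rw [← e1 n]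
    _ = _ := by rw [mul_add, tr_add, e3, add_zero, e4]

lemma nonneg_pow {K : IA} (hK : ∀ a b, 0 ≤ K a b) (s : ℕ) (a b : ℕ) : 0 ≤ (K ^ s) a b := by
  induction s generalizing a b with
  | zero =>
    rw [pow_zero, IncidenceAlgebra.one_apply]
    split_ifs <;> norm_num
  | succ s ih =>
    rw [pow_succ, IncidenceAlgebra.mul_apply]
    exact Finset.sum_nonneg fun x _ => mul_nonneg (ih a x) (hK x b)

lemma c_nonneg {K : IA} (hK : ∀ a b, 0 ≤ K a b) (n s : ℕ) : 0 ≤ tr n (dd K * K ^ s) := by
  unfold tr
  apply Finset.sum_nonneg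
  intro i _
  rw [IncidenceAlgebra.mul_apply]
  apply Finset.sum_nonneg
  intro x hx
  rw [Finset.mem_Icc] at hx
  refine mul_nonneg ?_ (nonneg_pow hK s _ _)
  rw [dd_apply]
  refine mul_nonneg ?_ (hK _ _)
  have : (i : ℝ) ≤ (x : ℝ) := by exact_mod_cast hx.1
  linarith

theorem t : TaskPos := by
  intro hGen hTr n t hn ht0 ht1 K R L P D pK pR pL pP pD hK0 hR1 hL1 hKn hR hL hP hPD hDP
  obtain ⟨R', hR1', hR2'⟩ := hGen R hR1
  obtain ⟨L', hL1', hL2'⟩ := hGen L hL1
  have htK : t • kap t K = tau t K := by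
    ext a b hab
    rw [IncidenceAlgebra.constSMul_apply, kap_apply, tau_apply, smul_eq_mul]
    by_cases h : a = b
    · subst h; rw [hK0]; ring
    · have : b - a = (b - a - 1) + 1 := by omega
      rw [this, pow_succ]
      simp only [Nat.add_sub_cancel]
      ring
  have hk0 : ∀ a, kap t K a a = 0 := by intro a; rw [kap_apply, hK0, mul_zero]
  have gK : gap 1 K := gap_one hK0
  have gk : gap 1 (kap t K) := gap_one hk0
  -- inverses
  obtain ⟨M', hM1, hM2⟩ := hGen (1 - kap t K) (by
    intro a; rw [IncidenceAlgebra.sub_apply, hk0, IncidenceAlgebra.one_apply]; simp)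
  obtain ⟨N', hN1, hN2⟩ := hGen (1 + K) (by
    intro a; rw [IncidenceAlgebra.add_apply, hK0, IncidenceAlgebra.one_apply]; simp)
  have pk : per n (kap t K) := per_kap t pK
  have pM : per n (1 - kap t K) := per_sub (per_one n) pk
  have pN : per n (1 + K) := per_add (per_one n) pK
  have hT1 : tau t L * tau t L' = 1 := by rw [← tau_mul, hL1', tau_one]
  have hT2 : tau t L' * tau t L = 1 := by rw [← tau_mul, hL2', tau_one]
  have hTR1 : tau t R * tau t R' = 1 := by rw [← tau_mul, hR1', tau_one]
  have hTR2 : tau t R' * tau t R = 1 := by rw [← tau_mul, hR2', tau_one]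
  -- D
  have hD : D = R' * tau t L' := by
    have e1 : P * (R' * tau t L') = 1 := by
      rw [hP]
      calc tau t L * R * (R' * tau t L') = tau t L * (R * R') * tau t L' := by
            simp only [mul_assoc]
        _ = 1 := by rw [hR1', mul_one, hT1]
    calc D = D * (P * (R' * tau t L')) := by rw [e1, mul_one]
      _ = (D * P) * (R' * tau t L') := by rw [mul_assoc]
      _ = R' * tau t L' := by rw [hDP, one_mul]
  have hLamT : ∀ f f' : IA, tr n (dd (tau t f) * tau t f') = t ^ n * tr n (dd f * f') := by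
    intro f f'
    rw [dd_tau, ← tau_mul, tr_tau]
  have main1 : tr n (dd P * D) = t ^ n * tr n (dd L * L') + tr n (dd R * R') := by
    rw [hD, hP, lam_mul hTr (per_tau t pL) pR hT1 hT2 hR1' hR2', hLamT]
  -- R
  have hRR : t ^ n * tr n (dd R * R') = tr n (dd (1 - kap t K) * M') + tr n (dd R * R') := by
    rw [← hLamT, ← lam_mul hTr pM pR hM1 hM2 hR1' hR2']
    have e1 : tau t R = (1 - kap t K) * R := by rw [hR, sub_mul, one_mul]
    have e2 : tau t R' = R' * M' := by
      calc tau t R' = tau t R' * (((1 - kap t K) * R) * (R' * M')) := by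
            have : ((1 - kap t K) * R) * (R' * M') = 1 := by
              calc ((1 - kap t K) * R) * (R' * M') = (1 - kap t K) * (R * R') * M' := by
                    simp only [mul_assoc]
                _ = 1 := by rw [hR1', mul_one, hM1]
            rw [this, mul_one]
        _ = (tau t R' * tau t R) * (R' * M') := by rw [← e1, mul_assoc]
        _ = R' * M' := by rw [hTR2, one_mul]
    rw [e1, e2]
  have hLL : tr n (dd L * L') = t ^ n * tr n (dd L * L') + tr n (dd (1 + K) * N') := by
    rw [← hLamT, ← lam_mul hTr (per_tau t pL) pN hT1 hT2 hN1 hN2, ← hL]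
    have e2 : L' = N' * tau t L' := by
      calc L' = L' * (L * (N' * tau t L')) := by
            have : L * (N' * tau t L') = 1 := by
              calc L * (N' * tau t L') = (tau t L * (1 + K)) * (N' * tau t L') := by rw [← hL]
                _ = tau t L * ((1 + K) * N') * tau t L' := by simp only [mul_assoc]
                _ = 1 := by rw [hN1, mul_one, hT1]
            rw [this, mul_one]
        _ = (L' * L) * (N' * tau t L') := by rw [mul_assoc]
        _ = N' * tau t L' := by rw [hL2', one_mul]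
    rw [← e2]
  -- expansions
  have hM : tr n (dd (1 - kap t K) * M') = - ∑ s ∈ range n, tr n (dd (kap t K) * (kap t K) ^ s) := by
    rw [dd_sub, dd_one, zero_sub, neg_mul']
    have : tr n (-(dd (kap t K) * M')) = - tr n (dd (kap t K) * M') := by
      unfold tr; simp
    rw [this, tr_geom gk hM1 hM2]
  have hNK : tr n (dd (1 + K) * N') = ∑ s ∈ range n, (-1) ^ s * tr n (dd K * K ^ s) := by
    have gN : gap 1 (-K) := gap_one (fun a => by rw [IncidenceAlgebra.neg_apply, hK0, neg_zero])
    have h1 : (1 - -K) * N' = 1 := by rw [sub_neg_eq_add]; exact hN1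
    have h2 : N' * (1 - -K) = 1 := by rw [sub_neg_eq_add]; exact hN2
    have h3 := tr_geom (n := n) gN h1 h2
    have h4 : dd (-K) = - dd K := by
      ext a b hab
      simp only [IncidenceAlgebra.neg_apply, dd_apply]
      ring
    have h5 : ∀ f : IA, tr n (-f) = - tr n f := by intro f; unfold tr; simp
    rw [dd_add, dd_one, zero_add]
    rw [h4, neg_mul', h5] at h3
    have h6 : tr n (dd K * N') = - ∑ s ∈ range n, tr n (-dd K * (-K) ^ s) := by linarith
    rw [h6, ← Finset.sum_neg_distrib]
    apply Finset.sum_congr rfl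
    intro s _
    rw [neg_mul', h5, neg_neg]
    have h7 : (-K) ^ s = ((-1 : ℝ) ^ s) • K ^ s := by
      have : (-K) = (-1 : ℝ) • K := by simp
      rw [this, smul_pow']
    rw [h7, mul_smul', tr_smul]
  have hkap : ∀ s, t ^ (s + 1) * tr n (dd (kap t K) * (kap t K) ^ s) = t ^ n * tr n (dd K * K ^ s) := by
    intro s
    rw [← tr_tau, tau_mul, tau_pow, ← dd_tau, ← htK, dd_smul, smul_pow', smul_mul',
      mul_smul', smul_smul, tr_smul, pow_succ, mul_comm (t ^ s) t]
  -- conclusion
  have hkey : (1 - t ^ n) * tr n (dd P * D) =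
      ∑ s ∈ range n, (t ^ n * ((-1) ^ s * tr n (dd K * K ^ s)) +
        tr n (dd (kap t K) * (kap t K) ^ s)) := by
    rw [Finset.sum_add_distrib, ← Finset.mul_sum, ← hNK]
    have e1 : (1 - t ^ n) * tr n (dd R * R') = ∑ s ∈ range n, tr n (dd (kap t K) * (kap t K) ^ s) := by
      rw [hM] at hRR; linarith
    have e2 : (1 - t ^ n) * tr n (dd L * L') = tr n (dd (1 + K) * N') := by linarith
    rw [main1, ← e1, ← e2]
    ring
  have hpos : 0 ≤ (1 - t ^ n) * tr n (dd P * D) := by
    rw [hkey]
    apply Finset.sum_nonneg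
    intro s _
    have hc := c_nonneg hKn n s
    set c := tr n (dd K * K ^ s) with hcdef
    have h1 : tr n (dd (kap t K) * (kap t K) ^ s) = t ^ n * c / t ^ (s + 1) := by
      rw [eq_div_iff (by positivity), mul_comm]
      exact hkap s
    have h2 : t ^ n * c ≤ t ^ n * c / t ^ (s + 1) := by
      rw [le_div_iff₀ (by positivity)]
      have : t ^ (s + 1) ≤ 1 := pow_le_one₀ ht0.le ht1.le
      have h3 : 0 ≤ t ^ n * c := by positivity
      nlinarith
    rw [h1]
    have h4 : -(t ^ n * c) ≤ t ^ n * ((-1) ^ s * c) := by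
      rcases neg_one_pow_eq_or ℝ s with h | h
      · rw [h]; have : 0 ≤ t ^ n * c := by positivity
        linarith
      · rw [h]; linarith
    linarith
  have hlt : t ^ n < 1 := pow_lt_one₀ ht0.le ht1 (by omega)
  by_contra hneg
  push Not at hneg
  have : (1 - t ^ n) * tr n (dd P * D) < 0 := mul_neg_of_pos_of_neg (by linarith) hneg
  linarith

end H187CC.TPos
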